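import Pool.Agent.Lib.MP_c6cae0_co.PB.Defs

/-!
PB, job A1: the basic identities and monotonicity for `D`. See table papers, id 374, step (1).
-/

set_option autoImplicit false

namespace PB

open Finset Pool.Agent.Lib.MP_dd2a7c_co

variable {G : Type} [AddCommGroup G] [Fintype G]

/-- JOB A1. (a) `D(WB) = 2 D(B) - D(SB)`.

PROOF. `ent (prod p p) (f₁, (f₁ + f₂, z₁, z₂)) = ent (prod p p) ((f₁, z₁), (f₂, z₂)) = 2 ent p (f, z)` (`ent_congr`, `ent_prod`),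
and `(W B).hc` is this minus `ent (prod p p) (f₁ + f₂, z₁, z₂)`, which occurs in `(S B).hc` with `ent (prod p p) (z₁, z₂) = 2 ent p z`. -/
theorem D_W (B : CV G) : B.W.D = 2 * B.D - B.S.D := by
  have h1 : ent (prod B.p B.p) (fun x => (B.f x.1, (B.f x.1 + B.f x.2, B.z x.1, B.z x.2))) =
      2 * ent B.p (fun ω => (B.f ω, B.z ω)) := by
    have e := ent_prod B.hp B.hp (fun ω => (B.f ω, B.z ω)) (fun ω => (B.f ω, B.z ω))
    rw [two_mul, ← e]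
    refine ent_congr _ _ fun ω ω' _ _ => ?_
    simp only [Prod.mk.injEq]
    constructor
    · rintro ⟨a, b, c, d⟩
      rw [a] at b
      exact ⟨⟨a, c⟩, add_left_cancel b, d⟩
    · rintro ⟨⟨a, c⟩, b, d⟩
      exact ⟨a, by rw [a, b], c, d⟩
  have h2 : ent (prod B.p B.p) (fun x => (B.z x.1, B.z x.2)) = 2 * ent B.p B.z := by
    rw [two_mul]
    exact ent_prod B.hp B.hp B.z B.z
  have e1 : B.W.hc = ent (prod B.p B.p) (fun x => (B.f x.1, (B.f x.1 + B.f x.2, B.z x.1, B.z x.2))) -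
      ent (prod B.p B.p) (fun x => (B.f x.1 + B.f x.2, B.z x.1, B.z x.2)) := rfl
  have e2 : B.S.hc = ent (prod B.p B.p) (fun x => (B.f x.1 + B.f x.2, B.z x.1, B.z x.2)) -
      ent (prod B.p B.p) (fun x => (B.z x.1, B.z x.2)) := rfl
  have e3 : B.hc = ent B.p (fun ω => (B.f ω, B.z ω)) - ent B.p B.z := rfl
  unfold CV.D
  rw [e1, e2, e3, h1, h2]
  ring

/-- (b) `0 ≤ D(B)`. PROOF. `ent (f, z) ≤ ent f + ent z` (`ent_pair_le`) and `ent f ≤ log |G|` (`ent_le_log_card`). -/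
theorem D_nonneg (B : CV G) : 0 ≤ B.D := by
  have h1 := ent_pair_le B.hp B.f B.z
  have h2 := ent_le_log_card B.hp B.f Finset.univ (fun _ _ => Finset.mem_univ _)
  rw [Finset.card_univ] at h2
  unfold CV.D CV.hc
  linarith

/-- (c) `D(B) ≤ log |G|`. PROOF. `ent z ≤ ent (f, z)` (`ent_mono`). -/
theorem D_le_log (B : CV G) : B.D ≤ Real.log (Fintype.card G) := by
  have h1 := ent_mono B.hp (fun ω => (B.f ω, B.z ω)) B.z
    (fun ω ω' _ _ e => (Prod.mk.inj e).2)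
  unfold CV.D CV.hc
  linarith

/-- (d) `D(SB) ≤ D(B)`. PROOF. `H(f₁ + f₂ | z₁, z₂) ≥ H(f₁ + f₂ | z₁, z₂, f₂) = H(f₁ | z₁)`:
`submod` for `(f₁ + f₂, z₁, z₂)` and `(f₂, z₁, z₂)` over `(z₁, z₂)`. -/
theorem D_S_le (B : CV G) : B.S.D ≤ B.D := by
  have h0 := submod' (isProb_prod B.hp B.hp)
    (fun x : B.Ω × B.Ω => (B.f x.1 + B.f x.2, B.z x.1, B.z x.2))
    (fun x : B.Ω × B.Ω => (B.z x.1, (B.f x.2, B.z x.2)))
    (fun x : B.Ω × B.Ω => (B.z x.1, B.z x.2))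
    (fun x : B.Ω × B.Ω => ((B.f x.1, B.z x.1), (B.f x.2, B.z x.2)))
    (fun ω ω' e => by
      simp only [Prod.mk.injEq] at e ⊢
      exact e.2)
    (fun ω ω' e => by
      simp only [Prod.mk.injEq] at e ⊢
      exact ⟨e.1, e.2.2⟩)
    (fun ω ω' _ _ e e' => by
      simp only [Prod.mk.injEq] at e e' ⊢
      refine ⟨⟨?_, e.2.1⟩, e'.2.1, e.2.2⟩
      have := e.1
      rw [e'.2.1] at this
      exact add_right_cancel this)
  have h1 : ent (prod B.p B.p) (fun x => ((B.f x.1, B.z x.1), (B.f x.2, B.z x.2))) =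
      ent B.p (fun ω => (B.f ω, B.z ω)) + ent B.p (fun ω => (B.f ω, B.z ω)) :=
    ent_prod B.hp B.hp (fun ω => (B.f ω, B.z ω)) (fun ω => (B.f ω, B.z ω))
  have h2 : ent (prod B.p B.p) (fun x => (B.z x.1, B.z x.2)) = ent B.p B.z + ent B.p B.z :=
    ent_prod B.hp B.hp B.z B.z
  have h3 : ent (prod B.p B.p) (fun x => (B.z x.1, (B.f x.2, B.z x.2))) =
      ent B.p B.z + ent B.p (fun ω => (B.f ω, B.z ω)) :=
    ent_prod B.hp B.hp B.z (fun ω => (B.f ω, B.z ω))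
  have e2 : B.S.hc = ent (prod B.p B.p) (fun x => (B.f x.1 + B.f x.2, B.z x.1, B.z x.2)) -
      ent (prod B.p B.p) (fun x => (B.z x.1, B.z x.2)) := rfl
  have e3 : B.hc = ent B.p (fun ω => (B.f ω, B.z ω)) - ent B.p B.z := rfl
  unfold CV.D
  rw [e2, e3]
  linarith

/-- (e) `D(SB) ≤ D(SWB)`: `H(f₁ + f₃ | f₁ + f₂, f₃ + f₄, z's) ≤ H(f₁ + f₃ | z₁, z₃)`. PROOF. `submod'` on the four-fold
product for `(f₁ + f₃, z's)` and the full label of `SWB` over `(z's)`, and `ent_prod` to remove the copies 2 and 4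
(`z₂`, `z₄` are independent of the rest: `ent ((f₁ + f₃, z₁, z₃), (z₂, z₄)) = ent (f₁ + f₃, z₁, z₃) + 2 ent z`). -/
theorem D_S_le_S_W (B : CV G) : B.S.D ≤ B.W.S.D := by
  have hp2 := isProb_prod B.hp B.hp
  have hp4 := isProb_prod hp2 hp2
  have h0 := submod' hp4
    (fun x : (B.Ω × B.Ω) × (B.Ω × B.Ω) =>
      (B.f x.1.1 + B.f x.2.1, ((B.z x.1.1, B.z x.1.2), (B.z x.2.1, B.z x.2.2))))
    (fun x : (B.Ω × B.Ω) × (B.Ω × B.Ω) =>
      ((B.f x.1.1 + B.f x.1.2, B.z x.1.1, B.z x.1.2),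
        (B.f x.2.1 + B.f x.2.2, B.z x.2.1, B.z x.2.2)))
    (fun x : (B.Ω × B.Ω) × (B.Ω × B.Ω) => ((B.z x.1.1, B.z x.1.2), (B.z x.2.1, B.z x.2.2)))
    (fun x : (B.Ω × B.Ω) × (B.Ω × B.Ω) =>
      (B.f x.1.1 + B.f x.2.1, ((B.f x.1.1 + B.f x.1.2, B.z x.1.1, B.z x.1.2),
        (B.f x.2.1 + B.f x.2.2, B.z x.2.1, B.z x.2.2))))
    (fun ω ω' e => by
      simp only [Prod.mk.injEq] at e ⊢
      exact e.2)
    (fun ω ω' e => by
      simp only [Prod.mk.injEq] at e ⊢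
      exact ⟨e.1.2, e.2.2⟩)
    (fun ω ω' _ _ e e' => by
      simp only [Prod.mk.injEq] at e e' ⊢
      exact ⟨e.1, e'⟩)
  have h2 : ent (prod (prod B.p B.p) (prod B.p B.p))
      (fun x => ((B.z x.1.1, B.z x.1.2), (B.z x.2.1, B.z x.2.2))) =
      4 * ent B.p B.z := by
    have e := ent_prod hp2 hp2 (fun x : B.Ω × B.Ω => (B.z x.1, B.z x.2))
      (fun x : B.Ω × B.Ω => (B.z x.1, B.z x.2))
    have e' := ent_prod B.hp B.hp B.z B.z
    rw [e, e']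
    ring
  have h2' : ent (prod B.p B.p) (fun x => (B.z x.1, B.z x.2)) = 2 * ent B.p B.z := by
    rw [two_mul]
    exact ent_prod B.hp B.hp B.z B.z
  have h3 : ent (prod (prod B.p B.p) (prod B.p B.p))
      (fun x => (B.f x.1.1 + B.f x.2.1, ((B.z x.1.1, B.z x.1.2), (B.z x.2.1, B.z x.2.2)))) =
      ent (prod B.p B.p) (fun x => (B.f x.1 + B.f x.2, B.z x.1, B.z x.2)) + 2 * ent B.p B.z := by
    have e1 := ent_prod hp2 hp2
      (fun x : B.Ω × B.Ω => (B.f x.1 + B.f x.2, B.z x.1, B.z x.2))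
      (fun x : B.Ω × B.Ω => (B.z x.1, B.z x.2))
    rw [← h2', ← e1]
    rw [ent_of_equiv (p := prod (prod B.p B.p) (prod B.p B.p))
      (q := prod (prod B.p B.p) (prod B.p B.p))
      (Equiv.prodProdProdComm B.Ω B.Ω B.Ω B.Ω) (fun ω => by
        simp only [prod, Equiv.prodProdProdComm_apply]
        ring)
      (fun x => (B.f x.1.1 + B.f x.2.1, ((B.z x.1.1, B.z x.1.2), (B.z x.2.1, B.z x.2.2))))
      (fun x => (B.f x.1.1 + B.f x.1.2, ((B.z x.1.1, B.z x.2.1), (B.z x.1.2, B.z x.2.2))))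
      (fun ω => rfl)]
    refine ent_congr _ _ fun ω ω' _ _ => ?_
    simp only [Prod.mk.injEq]
    constructor
    · rintro ⟨a, ⟨b, c⟩, d, e⟩
      exact ⟨⟨a, b, d⟩, c, e⟩
    · rintro ⟨⟨a, b, d⟩, c, e⟩
      exact ⟨a, ⟨b, c⟩, d, e⟩
  have e1 : B.W.S.hc = ent (prod (prod B.p B.p) (prod B.p B.p))
      (fun x => (B.f x.1.1 + B.f x.2.1, ((B.f x.1.1 + B.f x.1.2, B.z x.1.1, B.z x.1.2),
        (B.f x.2.1 + B.f x.2.2, B.z x.2.1, B.z x.2.2)))) -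
      ent (prod (prod B.p B.p) (prod B.p B.p))
      (fun x => ((B.f x.1.1 + B.f x.1.2, B.z x.1.1, B.z x.1.2),
        (B.f x.2.1 + B.f x.2.2, B.z x.2.1, B.z x.2.2))) := rfl
  have e2 : B.S.hc = ent (prod B.p B.p) (fun x => (B.f x.1 + B.f x.2, B.z x.1, B.z x.2)) -
      ent (prod B.p B.p) (fun x => (B.z x.1, B.z x.2)) := rfl
  unfold CV.D
  rw [e1, e2]
  linarith

end PB
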