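import Pool.Agent.Lib.MP_c6cae0_co.PB.Defs

section

/-!
PB, job A3: the degradation order. See table papers, id 374, step (2).
-/

set_option autoImplicit false

namespace PB

open Finset Pool.Agent.Lib.MP_dd2a7c_co

variable {G : Type} [AddCommGroup G]

open Classical in
/-- The law of a function of `F` in terms of the law of `F`. -/
private lemma pr_comp_sum {Ω α β : Type} [Fintype Ω] (p : Ω → ℝ) (F : Ω → α) (Ψ : α → β) (y : β)
    (s : Finset α) (hs : ∀ ω, F ω ∈ s) :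
    pr p (fun ω => Ψ (F ω)) y = ∑ a ∈ s, if Ψ a = y then pr p F a else 0 := by
  unfold pr
  have h1 : ∀ a ∈ s, (if Ψ a = y then ∑ ω, (if F ω = a then p ω else 0) else 0) =
      ∑ ω, (if F ω = a then (if Ψ (F ω) = y then p ω else 0) else 0) := by
    intro a _
    by_cases h : Ψ a = y
    · rw [if_pos h]
      refine sum_congr rfl fun ω _ => ?_
      by_cases h2 : F ω = a
      · rw [if_pos h2, if_pos h2, if_pos (by rw [h2]; exact h)]
      · rw [if_neg h2, if_neg h2]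
    · rw [if_neg h]
      symm
      refine sum_eq_zero fun ω _ => ?_
      by_cases h2 : F ω = a
      · rw [if_pos h2, if_neg (by rw [h2]; exact h)]
      · rw [if_neg h2]
  rw [sum_congr rfl h1, sum_comm]
  refine sum_congr rfl fun ω _ => ?_
  rw [sum_ite_eq, if_pos (hs ω)]

open Classical in
/-- Equal laws give equal laws of all functions. -/
private lemma pr_comp_eq {Ω Ω' α β : Type} [Fintype Ω] [Fintype Ω'] (p : Ω → ℝ) (p' : Ω' → ℝ)
    (F : Ω → α) (F' : Ω' → α) (h : ∀ a, pr p F a = pr p' F' a) (Ψ : α → β) (y : β) :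
    pr p (fun ω => Ψ (F ω)) y = pr p' (fun ω => Ψ (F' ω)) y := by
  rw [pr_comp_sum p F Ψ y (univ.image F ∪ univ.image F')
      (fun ω => mem_union_left _ (mem_image_of_mem F (mem_univ ω))),
    pr_comp_sum p' F' Ψ y (univ.image F ∪ univ.image F')
      (fun ω => mem_union_right _ (mem_image_of_mem F' (mem_univ ω)))]
  refine sum_congr rfl fun a _ => ?_
  rw [h a]

private lemma pr_assoc {Ω M₁ M₂ α : Type} [Fintype Ω] [Fintype M₁] [Fintype M₂]
    (p : Ω → ℝ) (q₁ : M₁ → ℝ) (q₂ : M₂ → ℝ) (R : Ω × M₁ → α) (u : α) (m : M₂) :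
    pr (prod p (prod q₁ q₂)) (fun b => (R (b.1, b.2.1), b.2.2)) (u, m) =
      pr (prod p q₁) R u * pr q₂ id m := by
  rw [← pr_prod (prod p q₁) q₂ R id u m]
  unfold pr
  simp only [Fintype.sum_prod_type, prod, mul_assoc, id]

/-- JOB A3. (a) reflexivity. PROOF. `M = Unit`, `q = 1`, `r y () = y`; `pr_prod_fst`. -/
theorem Deg.refl (B : CV G) : Deg B B := by
  have hq : IsProb (fun _ : Unit => (1 : ℝ)) := ⟨fun _ => zero_le_one, by simp⟩
  refine ⟨Unit, inferInstance, fun _ => 1, hq, fun y _ => y, fun x y => ?_⟩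
  exact (pr_prod_fst B.p hq (fun ω => (x + B.f ω, B.z ω)) y).symm

/-- (b) transitivity. PROOF. `M = M₁ × M₂`, `q = prod q₁ q₂`, `r y (m₁, m₂) = r₂ (r₁ y m₁) m₂`. For fixed `x`,
`pr (prod B''…)`: by the second hypothesis the law of `(x + B'', Z'')` is that of `r₂ ((x + f', z'), m₂)` under `prod B'.p q₂`, a
function of the pair `((x + f', z'), m₂)`, whose law is the product of the laws (`law_prod`-type computation, or directly
`pr (prod p q) (F x.1, G x.2) (a, b) = pr p F a * pr q G b` = `pr_prod` and a sum over the values; note that the type of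
labels need not be finite: one can write `pr (prod B'.p q₂) (Φ (F a.1) a.2) y = ∑ m, q₂ m * pr B'.p (fun ω => Φ (F ω) m) y` and
a preimage count: for any `Ψ`, `pr p (fun ω => Ψ (F ω)) y` depends only on the values `pr p F a` because it is the sum of
`p ω` over the `ω` with `Ψ (F ω) = y`; a convenient general lemma: if `pr p F a = pr p' F' a` for all `a` then
`pr p (fun ω => Ψ (F ω)) y = pr p' (fun ω => Ψ (F' ω)) y` for all `Ψ, y`, proved by summing over the finite set of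
values `image F univ ∪ image F' univ`). -/
theorem Deg.trans {B B' B'' : CV G} (h : Deg B B') (h' : Deg B' B'') : Deg B B'' := by
  obtain ⟨M₁, i₁, q₁, hq₁, r₁, h₁⟩ := h
  obtain ⟨M₂, i₂, q₂, hq₂, r₂, h₂⟩ := h'
  refine ⟨M₁ × M₂, inferInstance, prod q₁ q₂, isProb_prod hq₁ hq₂,
    fun y m => r₂ (r₁ y m.1) m.2, fun x y => ?_⟩
  rw [h₂ x y]
  refine pr_comp_eq (prod B'.p q₂) (prod B.p (prod q₁ q₂))
    (fun a => ((x + B'.f a.1, B'.z a.1), a.2))
    (fun b => (r₁ (x + B.f b.1, B.z b.1) b.2.1, b.2.2)) ?_ (fun c => r₂ c.1 c.2) y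
  rintro ⟨u, m⟩
  rw [pr_assoc B.p q₁ q₂ (fun a => r₁ (x + B.f a.1, B.z a.1) a.2) u m, ← h₁ x u]
  exact pr_prod B'.p q₂ (fun ω => (x + B'.f ω, B'.z ω)) id u m

/-- (c) the sum of two copies is a degraded version. PROOF. `M = B.Ω`, `q = B.p`,
`r (u, l) ω = (u + B.f ω, (l, B.z ω))`; both sides are `pr (prod B.p B.p)` of the same function (`add_assoc`). -/
theorem Deg.S (B : CV G) : Deg B B.S := by
  refine ⟨B.Ω, inferInstance, B.p, B.hp,
    fun y ω => (y.1 + B.f ω, (y.2, B.z ω)), fun x y => ?_⟩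
  change pr (prod B.p B.p) (fun ω => (x + (B.f ω.1 + B.f ω.2), (B.z ω.1, B.z ω.2))) y =
    pr (prod B.p B.p) (fun a => (x + B.f a.1 + B.f a.2, (B.z a.1, B.z a.2))) y
  simp only [add_assoc]

end PB
end

section

section

/-!
PB, job A4: fibres of degraded variables. See table papers, id 374, step (2).
-/

set_option autoImplicit false

namespace PB

open Finset Pool.Agent.Lib.MP_dd2a7c_co

variable {G : Type} [AddCommGroup G]

/-- The map `φ`. -/
private def phi {L : Type} (c : (G × L) × (G × L)) : G × (G × L × L) :=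
  (c.1.1, (c.1.1 + c.2.1, c.1.2, c.2.2))

private theorem phi_inj {L : Type} :
    Function.Injective (phi : (G × L) × (G × L) → G × (G × L × L)) := by
  rintro ⟨⟨v, n⟩, ⟨v', n'⟩⟩ ⟨⟨w, k⟩, ⟨w', k'⟩⟩ h
  change (v, (v + v', n, n')) = (w, (w + w', k, k')) at h
  simp only [Prod.mk.injEq] at h
  obtain ⟨h1, h3, h4, h5⟩ := h
  rw [h1] at h3
  rw [h1, h4, h5, add_left_cancel h3]

private theorem pr_zero {Ω α : Type} [Fintype Ω] (p : Ω → ℝ) (f : Ω → α) (a : α)
    (h : ∀ ω, f ω ≠ a) : pr p f a = 0 := by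
  unfold pr
  apply Finset.sum_eq_zero
  intro ω _
  exact if_neg (h ω)

/-- JOB A4. If `B'` is a degraded version of `B` then `W B'` is a degraded version of `W B`.

PROOF. Let `M, q, r` be given for `B, B'`. Take `M × M`, `prod q q` and
`r' (u, (s, l, l')) (m, m') = (v, (v + v', n, n'))` where `(v, n) = r (u, l) m` and `(v', n') = r (u + s, l') m'`.
For fixed `x`: with `u = x + f₁`, `s = f₁ + f₂` one has `u + s = x + f₂` (`h2`), so the right side is the probability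
that `φ (r (x + f₁, z₁) m, r (x + f₂, z₂) m') = y`, `φ ((v, n), (v', n')) = (v, (v + v', n, n'))`; the left side is the
probability that `φ ((x + f'₁, z'₁), (x + f'₂, z'₂)) = y` since `(x + f'₁) + (x + f'₂) = f'₁ + f'₂` (`h2`). Both are
images under `φ` of a product of two copies of the same law (`pr_prod` after reordering `((ω, ω'), (m, m'))` to
`((ω, m), (ω', m'))`, `pr_of_equiv`). As `φ` is injective (`v' = (v + v') + v`), `y` is either not in the image of `φ` (both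
sides are `0`) or `y = φ (a, b)` and both sides are a product `pr … a * pr … b`. -/
theorem Deg.W (h2 : ∀ x : G, x + x = 0) {B B' : CV G} (h : Deg B B') : Deg B.W B'.W := by
  obtain ⟨M, hM, q, hq, r, hr⟩ := h
  refine ⟨M × M, inferInstance, prod q q, isProb_prod hq hq,
    fun a m => phi ((r (a.1, a.2.2.1) m.1), (r (a.1 + a.2.1, a.2.2.2) m.2)), ?_⟩
  intro x (y : G × (G × B'.L × B'.L))
  have e1 : (fun w : B'.W.Ω => (x + B'.W.f w, B'.W.z w)) =
      fun w : B'.Ω × B'.Ω => phi ((x + B'.f w.1, B'.z w.1), (x + B'.f w.2, B'.z w.2)) := by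
    funext w
    change (x + B'.f w.1, (B'.f w.1 + B'.f w.2, B'.z w.1, B'.z w.2)) =
      (x + B'.f w.1, ((x + B'.f w.1) + (x + B'.f w.2), B'.z w.1, B'.z w.2))
    have : (x + B'.f w.1) + (x + B'.f w.2) = B'.f w.1 + B'.f w.2 := by
      rw [add_add_add_comm, h2, zero_add]
    rw [this]
  have e2 : (fun a : B.W.Ω × (M × M) =>
      (fun (a : G × B.W.L) (m : M × M) => phi ((r (a.1, a.2.2.1) m.1),
        (r (a.1 + a.2.1, a.2.2.2) m.2))) (x + B.W.f a.1, B.W.z a.1) a.2) =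
      fun a : (B.Ω × B.Ω) × (M × M) => phi (r (x + B.f a.1.1, B.z a.1.1) a.2.1,
        r (x + B.f a.1.2, B.z a.1.2) a.2.2) := by
    funext a
    change phi (r (x + B.f a.1.1, B.z a.1.1) a.2.1,
        r (x + B.f a.1.1 + (B.f a.1.1 + B.f a.1.2), B.z a.1.2) a.2.2) = _
    have : x + B.f a.1.1 + (B.f a.1.1 + B.f a.1.2) = x + B.f a.1.2 := by
      rw [← add_assoc, add_assoc x, h2, add_zero]
    rw [this]
  refine (congrArg (fun F => pr (prod B'.p B'.p) F y) e1).trans ?_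
  refine Eq.trans ?_ (congrArg (fun F => pr (prod (prod B.p B.p) (prod q q)) F y) e2).symm
  by_cases hy : ∃ c : (G × B'.L) × (G × B'.L), phi c = y
  · obtain ⟨⟨a, b⟩, rfl⟩ := hy
    have l1 : pr (prod B'.p B'.p) (fun w : B'.Ω × B'.Ω =>
        phi ((x + B'.f w.1, B'.z w.1), (x + B'.f w.2, B'.z w.2))) (phi (a, b)) =
        pr B'.p (fun ω => (x + B'.f ω, B'.z ω)) a * pr B'.p (fun ω => (x + B'.f ω, B'.z ω)) b := by
      rw [← pr_prod]
      exact pr_congr _ _ _ _ (fun w _ => (phi_inj).eq_iff)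
    have l2 : pr (prod (prod B.p B.p) (prod q q)) (fun a : (B.Ω × B.Ω) × (M × M) =>
        phi (r (x + B.f a.1.1, B.z a.1.1) a.2.1, r (x + B.f a.1.2, B.z a.1.2) a.2.2))
        (phi (a, b)) =
        pr (prod B.p q) (fun a => r (x + B.f a.1, B.z a.1) a.2) a *
        pr (prod B.p q) (fun a => r (x + B.f a.1, B.z a.1) a.2) b := by
      rw [← pr_prod]
      refine Eq.trans (pr_congr _ (fun a : (B.Ω × B.Ω) × (M × M) =>
        (r (x + B.f a.1.1, B.z a.1.1) a.2.1, r (x + B.f a.1.2, B.z a.1.2) a.2.2)) _ (a, b)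
        (fun w _ => (phi_inj).eq_iff)) ?_
      apply pr_of_equiv (Equiv.prodProdProdComm B.Ω B.Ω M M)
      · intro w
        change B.p w.1.1 * q w.2.1 * (B.p w.1.2 * q w.2.2) =
          B.p w.1.1 * B.p w.1.2 * (q w.2.1 * q w.2.2)
        ring
      · intro w
        rfl
    rw [l1, l2, hr, hr]
  · rw [pr_zero _ _ _ (fun w hw => hy ⟨_, hw⟩), pr_zero _ _ _ (fun w hw => hy ⟨_, hw⟩)]

end PB
end

section

/-!
PB, job B3: conditionally independent copies and the entropic Balog-Szemeredi-Gowers lemma. See table papers, id 374, step (4).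
-/

set_option autoImplicit false

namespace PB

open Finset Pool.Agent.Lib.MP_dd2a7c_co

noncomputable section

variable {Ω α β γ : Type} [Fintype Ω] {p : Ω → ℝ}

/-- The weights of two copies of `ω`, conditionally independent given `c ω`. -/
def fp (p : Ω → ℝ) (c : Ω → γ) : Ω × Ω → ℝ := fun x => p x.1 * cw p c (c x.1) x.2

/-- Sums of functions of the first copy. -/
private theorem sum_fp_fst (hp : IsProb p) (c : Ω → γ) (F : Ω → ℝ) :
    ∑ x, fp p c x * F x.1 = ∑ ω, p ω * F ω := by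
  rw [Fintype.sum_prod_type]
  refine sum_congr rfl fun ω _ => ?_
  by_cases h : p ω = 0
  · simp [fp, h]
  · have h1 := (isProb_cw hp (g := c) (z := c ω) (pr_pos hp c h).ne').sum_one
    simp only [fp]
    rw [← sum_mul, ← mul_sum, h1, mul_one]

/-- The symmetric form. -/
private theorem fp_swap (p : Ω → ℝ) (c : Ω → γ) (x : Ω × Ω) : fp p c x.swap = fp p c x := by
  unfold fp cw
  by_cases h : c x.2 = c x.1
  · simp only [Prod.fst_swap, Prod.snd_swap, h, if_true]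
    ring
  · simp only [Prod.fst_swap, Prod.snd_swap]
    rw [if_neg h, if_neg (fun e => h e.symm)]
    ring

private theorem pr_fp_fst (hp : IsProb p) (c : Ω → γ) (F : Ω → α) (t : α) :
    pr (fp p c) (fun x => F x.1) t = pr p F t := by
  classical
  have h := sum_fp_fst hp c (fun ω => if F ω = t then 1 else 0)
  unfold pr
  simp only [mul_ite, mul_one, mul_zero] at h
  convert h

/-- JOB B3. (a) `fp` is a probability. PROOF. `∑ ω', cw p c (c ω) ω' = 1` if `p ω ≠ 0` (`isProb_cw`, `pr_pos`). -/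
theorem isProb_fp (hp : IsProb p) (c : Ω → γ) : IsProb (fp p c) where
  nonneg x := by
    unfold fp cw
    split_ifs
    · exact mul_nonneg (hp.nonneg _) (div_nonneg (hp.nonneg _) (pr_nonneg hp _ _))
    · simp
  sum_one := by
    have h := sum_fp_fst hp c (fun _ => 1)
    simp only [mul_one] at h
    rw [h, hp.sum_one]

/-- (b) On the support the two labels agree. PROOF. definition of `cw`. -/
theorem fp_label (p : Ω → ℝ) (c : Ω → γ) {x : Ω × Ω} (h : fp p c x ≠ 0) : c x.1 = c x.2 := by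
  by_contra hne
  apply h
  unfold fp cw
  rw [if_neg (fun e => hne e.symm), mul_zero]

/-- (c) First marginal. PROOF. `pr (fp p c) (F x.1) a = pr p F a` by (a)'s computation. -/
theorem ent_fp_fst (hp : IsProb p) (c : Ω → γ) (F : Ω → α) :
    ent (fp p c) (fun x => F x.1) = ent p F := by
  unfold ent
  simp_rw [pr_fp_fst hp c F]
  rw [sum_fp_fst hp c (fun ω => Real.log (pr p F (F ω)))]

/-- (d) Second marginal. PROOF. `fp` is symmetric: `fp p c (ω, ω') = if c ω = c ω' then p ω p ω' / pr p c (c ω) else 0`. -/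
theorem ent_fp_snd (hp : IsProb p) (c : Ω → γ) (F : Ω → α) :
    ent (fp p c) (fun x => F x.2) = ent p F := by
  rw [← ent_fp_fst hp c F]
  exact ent_of_equiv (Equiv.prodComm Ω Ω) (fun x => fp_swap p c x) (fun x => F x.2) (fun x => F x.1)
    (fun _ => rfl)

/-- (e) Chain rule over the label: PROOF. `ent_chain` on `fp p c` with `g = c x.1`; `cw (fp p c) (c x.1) l = prod (cw p c l) (cw p c l)`
for `pr p c l ≠ 0`. -/
theorem ent_fp_chain (hp : IsProb p) (c : Ω → γ) (F : Ω × Ω → α) :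
    ent (fp p c) (fun x => (F x, c x.1)) - ent p c =
      ∑ ω, p ω * ent (prod (cw p c (c ω)) (cw p c (c ω))) F := by
  have h1 := ent_chain (isProb_fp hp c) F (fun x => c x.1)
  rw [ent_fp_fst hp c c] at h1
  rw [h1]
  have h2 : ∀ l : γ, cw (fp p c) (fun x => c x.1) l = prod (cw p c l) (cw p c l) := by
    intro l
    funext x
    unfold prod
    rw [cw, pr_fp_fst hp c c l]
    by_cases h : c x.1 = l
    · rw [if_pos h]
      unfold fp
      rw [h]
      conv_rhs => rw [cw, if_pos h]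
      ring
    · rw [if_neg h]
      conv_rhs => rw [cw, if_neg h]
      ring
  simp_rw [h2]
  exact sum_fp_fst hp c (fun ω => ent (prod (cw p c (c ω)) (cw p c (c ω))) F)

/-- (f) Conditional independence: PROOF. (e), `ent_prod` and `ent_chain`. -/
theorem ent_fp_pair (hp : IsProb p) (c : Ω → γ) (F : Ω → α) (F' : Ω → β) :
    ent (fp p c) (fun x => ((F x.1, F' x.2), c x.1)) =
      ent p (fun ω => (F ω, c ω)) + ent p (fun ω => (F' ω, c ω)) - ent p c := by
  have h1 := ent_fp_chain hp c (fun x => (F x.1, F' x.2))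
  have h2 := ent_chain hp F c
  have h3 := ent_chain hp F' c
  have h4 : ∑ ω, p ω * ent (prod (cw p c (c ω)) (cw p c (c ω))) (fun x => (F x.1, F' x.2)) =
      ∑ ω, p ω * ent (cw p c (c ω)) F + ∑ ω, p ω * ent (cw p c (c ω)) F' := by
    rw [← sum_add_distrib]
    refine sum_congr rfl fun ω _ => ?_
    by_cases h : p ω = 0
    · simp [h]
    · have hc := isProb_cw hp (g := c) (z := c ω) (pr_pos hp c h).ne'
      rw [ent_prod hc hc, mul_add]
  rw [h4] at h1
  linarith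

/-- (g) The entropic Balog-Szemeredi-Gowers lemma with a side label `w`: `a + b = v`.
`avg H(A + A' | (v, w)) ≤ 2 I(a : b | w) + H(v | w)`.

PROOF. Work on `fp p c`, `c = (v, w)`. By (e) the left side is `ent (fp p c) (a x.1 + a x.2, c x.1) - ent p c`, and
`H(a₁ + a₂ | v, w) = H(a₁ + b₂ | v, w) ≤ H(a₁ + b₂ | w)` (`a₂ = v + b₂` by `h2`; on the support `v x.1 = v x.2`, `w x.1 = w x.2`:
`submod_supp`). With `f = (a₁, b₂, w)` and `g = (a₂, b₁, w)`, both determine `(a₁ + b₂, w) = (a₂ + b₁, w)`, and together they determine everything: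
`H(a₁, b₁, a₂, b₂, w) + H(a₁ + b₂, w) ≤ H(a₁, b₂, w) + H(a₂, b₁, w)` (`submod_supp`). Here `H(a₁, b₁, a₂, b₂, w) = 2 H(a, b, w) - H(v, w)`
((f), `(a, b, w)` determines `c`), and `H(a₁, b₂, w) ≤ H(a, w) + H(b, w) - H(w)` (`submod_supp`, marginals (c), (d)). -/
theorem bsg {G : Type} [AddCommGroup G] (h2 : ∀ x : G, x + x = 0) (hp : IsProb p) (a b : Ω → G) (w : Ω → γ) :
    ∑ ω, p ω * Hs (cw p (fun ω => (a ω + b ω, w ω)) (a ω + b ω, w ω))
        (cw p (fun ω => (a ω + b ω, w ω)) (a ω + b ω, w ω)) a a ≤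
      2 * (ent p (fun ω => (a ω, w ω)) + ent p (fun ω => (b ω, w ω)) -
        ent p (fun ω => (a ω, b ω, w ω)) - ent p w) + (ent p (fun ω => (a ω + b ω, w ω)) - ent p w) := by
  set c : Ω → G × γ := fun ω => (a ω + b ω, w ω) with hc
  have hq := isProb_fp hp c
  have hv : ∀ x : Ω × Ω, fp p c x ≠ 0 → a x.1 + b x.1 = a x.2 + b x.2 ∧ w x.1 = w x.2 := by
    intro x hx
    have h := fp_label p c hx
    simpa [hc] using h
  have e1 := ent_fp_chain hp c (fun x => a x.1 + a x.2)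
  have e2 : ∑ ω, p ω * Hs (cw p c (c ω)) (cw p c (c ω)) a a =
      ∑ ω, p ω * ent (prod (cw p c (c ω)) (cw p c (c ω))) (fun x => a x.1 + a x.2) := rfl
  have e3 := ent_fp_pair hp c (fun ω => (a ω, b ω)) (fun ω => (a ω, b ω))
  have e4 : ent p (fun ω => ((a ω, b ω), c ω)) = ent p (fun ω => (a ω, b ω, w ω)) := by
    refine ent_congr _ _ fun ω ω' _ _ => ?_
    simp only [hc, Prod.mk.injEq]
    constructor
    · rintro ⟨⟨h1, h3⟩, h4, h5⟩
      exact ⟨h1, h3, h5⟩
    · rintro ⟨h1, h3, h5⟩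
      exact ⟨⟨h1, h3⟩, by rw [h1, h3], h5⟩
  have m1 : ent (fp p c) (fun x => (a x.1, w x.1)) = ent p (fun ω => (a ω, w ω)) :=
    ent_fp_fst hp c (fun ω => (a ω, w ω))
  have m2 : ent (fp p c) (fun x => (b x.2, w x.2)) = ent p (fun ω => (b ω, w ω)) :=
    ent_fp_snd hp c (fun ω => (b ω, w ω))
  have m3 : ent (fp p c) (fun x => (a x.2, w x.2)) = ent p (fun ω => (a ω, w ω)) :=
    ent_fp_snd hp c (fun ω => (a ω, w ω))
  have m4 : ent (fp p c) (fun x => (b x.1, w x.1)) = ent p (fun ω => (b ω, w ω)) :=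
    ent_fp_fst hp c (fun ω => (b ω, w ω))
  have m5 : ent (fp p c) (fun x => w x.1) = ent p w := ent_fp_fst hp c w
  have m6 : ent (fp p c) (fun x => c x.1) = ent p c := ent_fp_fst hp c c
  have s1 := submod_supp hq (fun x => (a x.1 + b x.2, w x.1)) (fun x => c x.1) (fun x => w x.1)
    (fun x => (a x.1 + a x.2, c x.1))
    (fun x y _ _ h => (Prod.ext_iff.1 h).2)
    (fun x y _ _ h => (Prod.ext_iff.1 h).2)
    (by
      intro x y hx hy h1 h3
      obtain ⟨vx, -⟩ := hv x hx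
      obtain ⟨vy, -⟩ := hv y hy
      simp only [hc, Prod.mk.injEq] at h1 h3 ⊢
      refine ⟨?_, h3⟩
      have k : ∀ z : Ω × Ω, a z.1 + b z.1 = a z.2 + b z.2 →
          a z.1 + a z.2 = (a z.1 + b z.2) + (a z.1 + b z.1) := by
        intro z hz
        rw [hz]
        have := h2 (b z.2)
        calc a z.1 + a z.2 = a z.1 + a z.2 + (b z.2 + b z.2) := by rw [this, add_zero]
          _ = _ := by abel
      rw [k x vx, k y vy, h1.1, h3.1])
  have s2 := submod_supp hq (fun x => (a x.1, b x.2, w x.1)) (fun x => (a x.2, b x.1, w x.1))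
    (fun x => (a x.1 + b x.2, w x.1)) (fun x => (((a x.1, b x.1), (a x.2, b x.2)), c x.1))
    (by
      intro x y _ _ h
      simp only [Prod.mk.injEq] at h ⊢
      exact ⟨by rw [h.1, h.2.1], h.2.2⟩)
    (by
      intro x y hx hy h
      obtain ⟨vx, -⟩ := hv x hx
      obtain ⟨vy, -⟩ := hv y hy
      simp only [Prod.mk.injEq] at h ⊢
      refine ⟨?_, h.2.2⟩
      have k : ∀ z : Ω × Ω, a z.1 + b z.1 = a z.2 + b z.2 → a z.1 + b z.2 = a z.2 + b z.1 := by
        intro z hz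
        have h4 := h2 (b z.2)
        have h5 := h2 (b z.1)
        calc a z.1 + b z.2 = (a z.1 + b z.1) + b z.2 - b z.1 := by abel
          _ = a z.2 + (b z.2 + b z.2) - (b z.1 + b z.1) + b z.1 := by rw [hz]; abel
          _ = _ := by rw [h4, h5]; abel
      rw [k x vx, k y vy, h.1, h.2.1])
    (by
      intro x y hx hy h h'
      simp only [hc, Prod.mk.injEq] at h h' ⊢
      refine ⟨⟨⟨h.1, h'.2.1⟩, h'.1, h.2.1⟩, ?_, h.2.2⟩
      rw [h.1, h'.2.1])
  have s3 := submod_supp hq (fun x => (a x.1, w x.1)) (fun x => (b x.2, w x.2))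
    (fun x => w x.1) (fun x => (a x.1, b x.2, w x.1))
    (fun x y _ _ h => (Prod.ext_iff.1 h).2)
    (by
      intro x y hx hy h
      have h3 := (Prod.ext_iff.1 h).2
      simp only at h3 ⊢
      rw [(hv x hx).2, (hv y hy).2, h3])
    (by
      intro x y hx hy h h'
      simp only [Prod.mk.injEq] at h h' ⊢
      exact ⟨h.1, h'.1, h.2⟩)
  have s4 := submod_supp hq (fun x => (a x.2, w x.2)) (fun x => (b x.1, w x.1))
    (fun x => w x.1) (fun x => (a x.2, b x.1, w x.1))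
    (by
      intro x y hx hy h
      have h3 := (Prod.ext_iff.1 h).2
      simp only at h3 ⊢
      rw [(hv x hx).2, (hv y hy).2, h3])
    (fun x y _ _ h => (Prod.ext_iff.1 h).2)
    (by
      intro x y hx hy h h'
      simp only [Prod.mk.injEq] at h h' ⊢
      exact ⟨h.1, h'.1, h'.2⟩)
  rw [e2]
  rw [e4] at e3
  rw [m1, m2, m5] at s3
  rw [m3, m4, m5] at s4
  rw [m5, m6] at s1
  linarith

end

end PB
end

section

/-!
PB, job B4: averages over the labels. See table papers, id 374, step (4).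
-/

set_option autoImplicit false

namespace PB

open Finset Pool.Agent.Lib.MP_dd2a7c_co

variable {G : Type} [AddCommGroup G] [Fintype G] {μ : G → ℝ}

private lemma sum_prod_snd {Ω Ω' : Type} [Fintype Ω] [Fintype Ω'] {p : Ω → ℝ} (hp : IsProb p)
    (q : Ω' → ℝ) (F : Ω' → ℝ) :
    ∑ x : Ω × Ω', prod p q x * F x.2 = ∑ y, q y * F y := by
  rw [Fintype.sum_prod_type_right]
  refine sum_congr rfl fun y _ => ?_
  have : ∀ x, prod p q (x, y) * F y = p x * (q y * F y) := fun x => by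
    simp only [prod]
    ring
  simp only [this]
  rw [← sum_mul, hp.sum_one, one_mul]

private lemma sum_prod_fst {Ω Ω' : Type} [Fintype Ω] [Fintype Ω'] (p : Ω → ℝ) {q : Ω' → ℝ}
    (hq : IsProb q) (F : Ω → ℝ) :
    ∑ x : Ω × Ω', prod p q x * F x.1 = ∑ y, p y * F y := by
  rw [Fintype.sum_prod_type]
  refine sum_congr rfl fun y _ => ?_
  have : ∀ x, prod p q (y, x) * F y = q x * (p y * F y) := fun x => by
    simp only [prod]
    ring
  simp only [this]
  rw [← sum_mul, hq.sum_one, one_mul]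

private lemma one_avg (hμ : IsProb μ) (B : CV G) :
    ent (prod μ B.p) (fun x => (x.1 + B.f x.2, B.z x.2)) - ent B.p B.z =
      ∑ ω, B.p ω * Hs μ (cw B.p B.z (B.z ω)) id B.f := by
  have h1 := ent_chain (isProb_prod hμ B.hp) (fun x : G × B.Ω => x.1 + B.f x.2)
    (fun x : G × B.Ω => B.z x.2)
  rw [ent_prod_snd hμ B.p B.z] at h1
  rw [h1, ← sum_prod_snd hμ B.p (fun ω => Hs μ (cw B.p B.z (B.z ω)) id B.f)]
  refine sum_congr rfl fun x _ => ?_
  rw [cw_prod_snd hμ B.p B.z]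
  rfl

private lemma two_avg (hμ : IsProb μ) (B : CV G) :
    ent (prod μ (prod B.p B.p))
      (fun x => ((x.1 + B.f x.2.1, B.z x.2.1), (x.1 + B.f x.2.2, B.z x.2.2))) - 2 * ent B.p B.z =
      ∑ x : B.Ω × B.Ω, prod B.p B.p x *
        ent (prod μ (prod (cw B.p B.z (B.z x.1)) (cw B.p B.z (B.z x.2))))
          (fun y => (y.1 + B.f y.2.1, y.1 + B.f y.2.2)) := by
  have hpp := isProb_prod B.hp B.hp
  have h1 := ent_chain (isProb_prod hμ hpp)
    (fun x : G × B.Ω × B.Ω => (x.1 + B.f x.2.1, x.1 + B.f x.2.2))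
    (fun x : G × B.Ω × B.Ω => (B.z x.2.1, B.z x.2.2))
  have h2 : ent (prod μ (prod B.p B.p)) (fun x : G × B.Ω × B.Ω => (B.z x.2.1, B.z x.2.2)) =
      2 * ent B.p B.z := by
    rw [ent_prod_snd hμ (prod B.p B.p) (fun x : B.Ω × B.Ω => (B.z x.1, B.z x.2)),
      ent_prod B.hp B.hp]
    ring
  have h3 : ent (prod μ (prod B.p B.p))
      (fun x : G × B.Ω × B.Ω => ((x.1 + B.f x.2.1, B.z x.2.1), (x.1 + B.f x.2.2, B.z x.2.2))) =
      ent (prod μ (prod B.p B.p))
      (fun x : G × B.Ω × B.Ω => ((x.1 + B.f x.2.1, x.1 + B.f x.2.2), (B.z x.2.1, B.z x.2.2))) := by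
    refine ent_congr _ _ fun ω ω' _ _ => ?_
    simp only [Prod.mk.injEq]
    tauto
  rw [h3, ← h2, h1, ← sum_prod_snd hμ (prod B.p B.p) (fun x : B.Ω × B.Ω =>
    ent (prod μ (prod (cw B.p B.z (B.z x.1)) (cw B.p B.z (B.z x.2))))
          (fun y => (y.1 + B.f y.2.1, y.1 + B.f y.2.2)))]
  refine sum_congr rfl fun x _ => ?_
  rw [cw_prod_snd hμ (prod B.p B.p) (fun x : B.Ω × B.Ω => (B.z x.1, B.z x.2)), cw_prod]

/-- JOB B4. (a) `h(B)` is the average over two independent labels of `I(X + B₁ : X + B₂)`.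

PROOF. `ent (prod μ (prod p p)) ((x + f₁, z₁), (x + f₂, z₂)) - 2 ent z = ∑ …` by `ent_chain` with `g = (z₁, z₂)`, `cw_prod_snd`, `cw_prod`
(the conditional weights are `prod μ (prod (cw p z l₁) (cw p z l₂))`), and
`ent (prod μ p) (x + f, z) - ent z = ∑ ω, p ω * Hs μ (cw p z (z ω)) id f` in the same way; the average over `(ω, ω')` of a function of
`ω` alone is the average over `ω`. -/
theorem h_eq_avg (hμ : IsProb μ) (B : CV G) :
    B.h μ = ∑ x : B.Ω × B.Ω, prod B.p B.p x *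
      (Hs μ (cw B.p B.z (B.z x.1)) id B.f + Hs μ (cw B.p B.z (B.z x.2)) id B.f -
        ent (prod μ (prod (cw B.p B.z (B.z x.1)) (cw B.p B.z (B.z x.2))))
          (fun y => (y.1 + B.f y.2.1, y.1 + B.f y.2.2))) := by
  have h1 := one_avg hμ B
  have h2 := two_avg hμ B
  have h3 : ∀ x : B.Ω × B.Ω, prod B.p B.p x *
      (Hs μ (cw B.p B.z (B.z x.1)) id B.f + Hs μ (cw B.p B.z (B.z x.2)) id B.f -
        ent (prod μ (prod (cw B.p B.z (B.z x.1)) (cw B.p B.z (B.z x.2))))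
          (fun y => (y.1 + B.f y.2.1, y.1 + B.f y.2.2))) =
      prod B.p B.p x * Hs μ (cw B.p B.z (B.z x.1)) id B.f +
      prod B.p B.p x * Hs μ (cw B.p B.z (B.z x.2)) id B.f -
      prod B.p B.p x * ent (prod μ (prod (cw B.p B.z (B.z x.1)) (cw B.p B.z (B.z x.2))))
          (fun y => (y.1 + B.f y.2.1, y.1 + B.f y.2.2)) := fun x => by ring
  simp only [h3]
  rw [sum_sub_distrib, sum_add_distrib,
    sum_prod_fst B.p B.hp (fun ω => Hs μ (cw B.p B.z (B.z ω)) id B.f),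
    sum_prod_snd B.hp B.p (fun ω => Hs μ (cw B.p B.z (B.z ω)) id B.f), ← h1, ← h2]
  unfold CV.h
  ring

/-- (b) `H(B₁ + B₂ | Z₁, Z₂)` as an average. PROOF. `ent_chain`, `cw_prod`. -/
theorem hc_S_eq_avg (B : CV G) :
    B.S.hc = ∑ x : B.Ω × B.Ω, prod B.p B.p x *
      Hs (cw B.p B.z (B.z x.1)) (cw B.p B.z (B.z x.2)) B.f B.f := by
  have h1 := ent_chain (isProb_prod B.hp B.hp) (fun x : B.Ω × B.Ω => B.f x.1 + B.f x.2)
    (fun x : B.Ω × B.Ω => (B.z x.1, B.z x.2))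
  refine h1.trans ?_
  refine sum_congr rfl fun x _ => ?_
  rw [cw_prod]
  rfl

end PB
end

section

/-!
PB, job B5: the average self-doubling of the sums of two fibres. See table papers, id 374, step (4).
-/

set_option autoImplicit false

namespace PB

open Finset Pool.Agent.Lib.MP_dd2a7c_co

variable {G : Type} [AddCommGroup G] [Fintype G]

/-- `cw` depends only on the level set. -/
private lemma cw_congr_B5 {Ω α β : Type} [Fintype Ω] (p : Ω → ℝ) (g : Ω → α) (g' : Ω → β) (a : α) (b : β)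
    (h : ∀ ω, g ω = a ↔ g' ω = b) : cw p g a = cw p g' b := by
  have e : pr p g a = pr p g' b := pr_congr g g' a b fun ω _ => h ω
  funext ω
  unfold cw
  rw [e]
  by_cases h1 : g ω = a
  · rw [if_pos h1, if_pos ((h ω).1 h1)]
  · rw [if_neg h1, if_neg fun h2 => h1 ((h ω).2 h2)]


/-- JOB B5. The average over the labels `ζ` of two copies of `W B` of `κ_ζ = H(T_ζ + T_ζ') - H(T_ζ)` is at most `3 I₁(B)`,
`I₁(B) = D(SWB) - 2 D(SB) + D(SSB)`.

PROOF. Apply `bsg` on `Ω = (B.Ω × B.Ω) × (B.Ω × B.Ω)` with `p = prod (prod B.p B.p) (prod B.p B.p)`, elements `((1,2),(3,4))`,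
`a = f₁ + f₃`, `b = f₂ + f₃` (so `a + b = f₁ + f₂`), `w = (f₁ + f₂ + f₃ + f₄, z₁, z₂, z₃, z₄)`. The label `(a + b, w)` and the label of
two copies of `W B`, `((f₁ + f₂, z₁, z₂), (f₃ + f₄, z₃, z₄))`, determine each other, so the `cw`'s agree, and by `cw_prod` they are
products: the left side of `bsg` is `∑ x, prod … x * Hs (prod c c') (prod c c') (f + f) (f + f)`, as in the statement. Right side: by
exchangeability `(a, w)`, `(b, w)`, `(a + b, w)` all have entropy `2 E2`, `E2 = ent (prod B.p B.p) (f₁ + f₂, z₁, z₂)` (e.g. `(a, w) ↔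
((f₁ + f₃, z₁, z₃), (f₂ + f₄, z₂, z₄))`), `ent w = E4`, `ent (a, b, w) = Q`, and `B.W.S.hc = Q - 2 E2`, `B.S.hc = E2 - 2 ent z`,
`B.S.S.hc = E4 - 4 ent z`; so `I₁ = 4 E2 - Q - E4` and the bound is `2 I₁ + 2 E2 - E4`. Subtract `B.W.S.hc = Q - 2 E2` (`hc_S_eq_avg`). -/
theorem avg_kappa_le (h2 : ∀ x : G, x + x = 0) (B : CV G) :
    ∑ x : B.W.Ω × B.W.Ω, prod B.W.p B.W.p x *
      (Hs (prod (cw B.W.p B.W.z (B.W.z x.1)) (cw B.W.p B.W.z (B.W.z x.2)))
          (prod (cw B.W.p B.W.z (B.W.z x.1)) (cw B.W.p B.W.z (B.W.z x.2)))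
          (fun y => B.W.f y.1 + B.W.f y.2) (fun y => B.W.f y.1 + B.W.f y.2) -
        Hs (cw B.W.p B.W.z (B.W.z x.1)) (cw B.W.p B.W.z (B.W.z x.2)) B.W.f B.W.f) ≤
      3 * (B.W.S.D - 2 * B.S.D + B.S.S.D) := by
  classical
  have hq : IsProb (prod B.p B.p) := isProb_prod B.hp B.hp
  have hP : IsProb (prod (prod B.p B.p) (prod B.p B.p)) := isProb_prod hq hq
  have key := bsg h2 hP
    (fun x : (B.Ω × B.Ω) × (B.Ω × B.Ω) => B.f x.1.1 + B.f x.2.1)
    (fun x : (B.Ω × B.Ω) × (B.Ω × B.Ω) => B.f x.1.2 + B.f x.2.1)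
    (fun x : (B.Ω × B.Ω) × (B.Ω × B.Ω) => (B.f x.1.1 + B.f x.1.2 + (B.f x.2.1 + B.f x.2.2),
      ((B.z x.1.1, B.z x.1.2), (B.z x.2.1, B.z x.2.2))))
  have ab : ∀ x y u : G, x + u + (y + u) = x + y := by
    intro x y u
    calc x + u + (y + u) = x + y + (u + u) := by abel
      _ = x + y := by rw [h2, add_zero]
  -- the left side
  have hL : ∀ x : (B.Ω × B.Ω) × (B.Ω × B.Ω),
      cw (prod (prod B.p B.p) (prod B.p B.p)) (fun x : (B.Ω × B.Ω) × (B.Ω × B.Ω) =>
        (B.f x.1.1 + B.f x.2.1 + (B.f x.1.2 + B.f x.2.1),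
        (B.f x.1.1 + B.f x.1.2 + (B.f x.2.1 + B.f x.2.2),
      ((B.z x.1.1, B.z x.1.2), (B.z x.2.1, B.z x.2.2)))))
        (B.f x.1.1 + B.f x.2.1 + (B.f x.1.2 + B.f x.2.1),
        (B.f x.1.1 + B.f x.1.2 + (B.f x.2.1 + B.f x.2.2),
      ((B.z x.1.1, B.z x.1.2), (B.z x.2.1, B.z x.2.2)))) =
      prod (cw B.W.p B.W.z (B.W.z x.1)) (cw B.W.p B.W.z (B.W.z x.2)) := by
    intro x
    rw [← cw_prod]
    refine cw_congr_B5 _ _ _ _ _ fun y => ?_
    simp only [CV.W, Prod.mk.injEq, ab]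
    constructor
    · rintro ⟨k1, k2, ⟨k3, k4⟩, k5, k6⟩
      rw [k1] at k2
      exact ⟨⟨k1, k3, k4⟩, add_left_cancel k2, k5, k6⟩
    · rintro ⟨⟨k1, k3, k4⟩, k2, k5, k6⟩
      rw [k1, k2]
      exact ⟨rfl, rfl, ⟨k3, k4⟩, k5, k6⟩
  simp only [hL] at key
  have hS := hc_S_eq_avg B.W
  -- entropies
  have e1 : ent (prod (prod B.p B.p) (prod B.p B.p)) (fun x : (B.Ω × B.Ω) × (B.Ω × B.Ω) =>
      (B.f x.1.1 + B.f x.2.1, (B.f x.1.1 + B.f x.1.2 + (B.f x.2.1 + B.f x.2.2),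
      ((B.z x.1.1, B.z x.1.2), (B.z x.2.1, B.z x.2.2))))) =
      ent (prod B.p B.p) (fun x => (B.f x.1 + B.f x.2, (B.z x.1, B.z x.2))) +
      ent (prod B.p B.p) (fun x => (B.f x.1 + B.f x.2, (B.z x.1, B.z x.2))) := by
    rw [← ent_prod hq hq]
    rw [← ent_of_equiv (p := prod (prod B.p B.p) (prod B.p B.p)) (Equiv.prodProdProdComm B.Ω B.Ω B.Ω B.Ω)
      (fun x => by simp only [prod, Equiv.prodProdProdComm_apply]; ring)
      (fun x : (B.Ω × B.Ω) × (B.Ω × B.Ω) => ((B.f x.1.1 + B.f x.2.1, (B.z x.1.1, B.z x.2.1)),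
        (B.f x.1.2 + B.f x.2.2, (B.z x.1.2, B.z x.2.2)))) _ (fun x => rfl)]
    refine ent_congr _ _ fun x y _ _ => ?_
    simp only [Prod.mk.injEq]
    constructor
    · rintro ⟨k1, k2, ⟨k3, k4⟩, k5, k6⟩
      refine ⟨⟨k1, k3, k5⟩, ?_, k4, k6⟩
      have : B.f x.1.1 + B.f x.2.1 + (B.f x.1.2 + B.f x.2.2) =
          B.f y.1.1 + B.f y.2.1 + (B.f y.1.2 + B.f y.2.2) := by
        rw [add_add_add_comm, k2, add_add_add_comm]
      rw [k1] at this
      exact add_left_cancel this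
    · rintro ⟨⟨k1, k3, k5⟩, k2, k4, k6⟩
      refine ⟨k1, ?_, ⟨k3, k4⟩, k5, k6⟩
      rw [add_add_add_comm, k1, k2, add_add_add_comm]
  have e2 : ent (prod (prod B.p B.p) (prod B.p B.p)) (fun x : (B.Ω × B.Ω) × (B.Ω × B.Ω) =>
      (B.f x.1.2 + B.f x.2.1, (B.f x.1.1 + B.f x.1.2 + (B.f x.2.1 + B.f x.2.2),
      ((B.z x.1.1, B.z x.1.2), (B.z x.2.1, B.z x.2.2))))) =
      ent (prod B.p B.p) (fun x => (B.f x.1 + B.f x.2, (B.z x.1, B.z x.2))) +
      ent (prod B.p B.p) (fun x => (B.f x.1 + B.f x.2, (B.z x.1, B.z x.2))) := by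
    rw [← e1]
    have hsw : ent (prod (prod B.p B.p) (prod B.p B.p)) (fun x : (B.Ω × B.Ω) × (B.Ω × B.Ω) =>
      (B.f x.1.2 + B.f x.2.1, (B.f x.1.1 + B.f x.1.2 + (B.f x.2.1 + B.f x.2.2),
      ((B.z x.1.1, B.z x.1.2), (B.z x.2.1, B.z x.2.2))))) =
      ent (prod (prod B.p B.p) (prod B.p B.p)) (fun x : (B.Ω × B.Ω) × (B.Ω × B.Ω) =>
      (B.f x.1.1 + B.f x.2.1, (B.f x.1.2 + B.f x.1.1 + (B.f x.2.1 + B.f x.2.2),
      ((B.z x.1.2, B.z x.1.1), (B.z x.2.1, B.z x.2.2))))) := by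
      refine ent_of_equiv (p := prod (prod B.p B.p) (prod B.p B.p)) (q := prod (prod B.p B.p) (prod B.p B.p))
        (Equiv.prodCongr (Equiv.prodComm B.Ω B.Ω) (Equiv.refl _)) (fun x => ?_) _ _ (fun x => rfl)
      obtain ⟨⟨a, b⟩, c⟩ := x
      show B.p b * B.p a * (B.p c.1 * B.p c.2) = B.p a * B.p b * (B.p c.1 * B.p c.2)
      ring
    rw [hsw]
    · refine ent_congr _ _ fun x y _ _ => ?_
      simp only [Prod.mk.injEq]
      constructor
      · rintro ⟨k1, k2, ⟨k3, k4⟩, k5, k6⟩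
        refine ⟨k1, ?_, ⟨k4, k3⟩, k5, k6⟩
        rw [add_comm (B.f x.1.1), k2, add_comm (B.f y.1.1)]
      · rintro ⟨k1, k2, ⟨k3, k4⟩, k5, k6⟩
        refine ⟨k1, ?_, ⟨k4, k3⟩, k5, k6⟩
        rw [add_comm (B.f x.1.2), k2, add_comm (B.f y.1.2)]
  have e3 : ent (prod (prod B.p B.p) (prod B.p B.p)) (fun x : (B.Ω × B.Ω) × (B.Ω × B.Ω) =>
      (B.f x.1.1 + B.f x.2.1 + (B.f x.1.2 + B.f x.2.1), (B.f x.1.1 + B.f x.1.2 + (B.f x.2.1 + B.f x.2.2),
      ((B.z x.1.1, B.z x.1.2), (B.z x.2.1, B.z x.2.2))))) =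
      ent (prod B.p B.p) (fun x => (B.f x.1 + B.f x.2, (B.z x.1, B.z x.2))) +
      ent (prod B.p B.p) (fun x => (B.f x.1 + B.f x.2, (B.z x.1, B.z x.2))) := by
    rw [← ent_prod hq hq]
    refine ent_congr _ _ fun x y _ _ => ?_
    simp only [Prod.mk.injEq, ab]
    constructor
    · rintro ⟨k1, k2, ⟨k3, k4⟩, k5, k6⟩
      rw [k1] at k2
      exact ⟨⟨k1, k3, k4⟩, add_left_cancel k2, k5, k6⟩
    · rintro ⟨⟨k1, k3, k4⟩, k2, k5, k6⟩
      rw [k1, k2]
      exact ⟨rfl, rfl, ⟨k3, k4⟩, k5, k6⟩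
  have e4 : ent (prod (prod B.p B.p) (prod B.p B.p)) (fun x : (B.Ω × B.Ω) × (B.Ω × B.Ω) =>
      ((B.f x.1.1 + B.f x.2.1, (B.f x.1.1 + B.f x.1.2, (B.z x.1.1, B.z x.1.2)),
        (B.f x.2.1 + B.f x.2.2, (B.z x.2.1, B.z x.2.2))))) =
      ent (prod (prod B.p B.p) (prod B.p B.p)) (fun x : (B.Ω × B.Ω) × (B.Ω × B.Ω) =>
      (B.f x.1.1 + B.f x.2.1, B.f x.1.2 + B.f x.2.1, (B.f x.1.1 + B.f x.1.2 + (B.f x.2.1 + B.f x.2.2),
      ((B.z x.1.1, B.z x.1.2), (B.z x.2.1, B.z x.2.2))))) := by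
    refine ent_congr _ _ fun x y _ _ => ?_
    simp only [Prod.mk.injEq]
    constructor
    · rintro ⟨k0, ⟨k1, k3, k4⟩, k2, k5, k6⟩
      refine ⟨k0, ?_, ?_, ⟨k3, k4⟩, k5, k6⟩
      · rw [← ab (B.f x.1.2) (B.f x.2.1) (B.f x.1.1), ← ab (B.f y.1.2) (B.f y.2.1) (B.f y.1.1),
          add_comm (B.f x.1.2) (B.f x.1.1), add_comm (B.f x.2.1) (B.f x.1.1), k1, k0,
          add_comm (B.f y.1.2) (B.f y.1.1), add_comm (B.f y.2.1) (B.f y.1.1)]
      · rw [k1, k2]
    · rintro ⟨k0, k7, k2, ⟨k3, k4⟩, k5, k6⟩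
      have k1 : B.f x.1.1 + B.f x.1.2 = B.f y.1.1 + B.f y.1.2 := by
        rw [← ab (B.f x.1.1) (B.f x.1.2) (B.f x.2.1), k0, k7, ab]
      rw [k1] at k2
      exact ⟨k0, ⟨k1, k3, k4⟩, add_left_cancel k2, k5, k6⟩
  have e5 : B.W.S.hc = ent (prod (prod B.p B.p) (prod B.p B.p)) (fun x : (B.Ω × B.Ω) × (B.Ω × B.Ω) =>
      (B.f x.1.1 + B.f x.2.1, B.f x.1.2 + B.f x.2.1, (B.f x.1.1 + B.f x.1.2 + (B.f x.2.1 + B.f x.2.2),
      ((B.z x.1.1, B.z x.1.2), (B.z x.2.1, B.z x.2.2))))) -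
      2 * ent (prod B.p B.p) (fun x => (B.f x.1 + B.f x.2, (B.z x.1, B.z x.2))) := by
    rw [← e4, two_mul, ← ent_prod hq hq]
    rfl
  have e6 : B.S.hc = ent (prod B.p B.p) (fun x => (B.f x.1 + B.f x.2, (B.z x.1, B.z x.2))) -
      ent (prod B.p B.p) (fun x => (B.z x.1, B.z x.2)) := rfl
  have e7 : B.S.S.hc = ent (prod (prod B.p B.p) (prod B.p B.p)) (fun x : (B.Ω × B.Ω) × (B.Ω × B.Ω) =>
      (B.f x.1.1 + B.f x.1.2 + (B.f x.2.1 + B.f x.2.2),
      ((B.z x.1.1, B.z x.1.2), (B.z x.2.1, B.z x.2.2)))) -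
      2 * ent (prod B.p B.p) (fun x => (B.z x.1, B.z x.2)) := by
    rw [two_mul, ← ent_prod hq hq]
    rfl
  rw [e1, e2, e3] at key
  have hsplit : ∑ x : B.W.Ω × B.W.Ω, prod B.W.p B.W.p x *
      (Hs (prod (cw B.W.p B.W.z (B.W.z x.1)) (cw B.W.p B.W.z (B.W.z x.2)))
          (prod (cw B.W.p B.W.z (B.W.z x.1)) (cw B.W.p B.W.z (B.W.z x.2)))
          (fun y => B.W.f y.1 + B.W.f y.2) (fun y => B.W.f y.1 + B.W.f y.2) -
        Hs (cw B.W.p B.W.z (B.W.z x.1)) (cw B.W.p B.W.z (B.W.z x.2)) B.W.f B.W.f) =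
      ∑ x : B.W.Ω × B.W.Ω, prod B.W.p B.W.p x *
      Hs (prod (cw B.W.p B.W.z (B.W.z x.1)) (cw B.W.p B.W.z (B.W.z x.2)))
          (prod (cw B.W.p B.W.z (B.W.z x.1)) (cw B.W.p B.W.z (B.W.z x.2)))
          (fun y => B.W.f y.1 + B.W.f y.2) (fun y => B.W.f y.1 + B.W.f y.2) - B.W.S.hc := by
    rw [hS, ← sum_sub_distrib]
    exact sum_congr rfl fun x _ => mul_sub _ _ _
  rw [hsplit]
  have key' : ∑ x : B.W.Ω × B.W.Ω, prod B.W.p B.W.p x *
      Hs (prod (cw B.W.p B.W.z (B.W.z x.1)) (cw B.W.p B.W.z (B.W.z x.2)))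
          (prod (cw B.W.p B.W.z (B.W.z x.1)) (cw B.W.p B.W.z (B.W.z x.2)))
          (fun y => B.W.f y.1 + B.W.f y.2) (fun y => B.W.f y.1 + B.W.f y.2) ≤ _ := key
  simp only [CV.D, e5, e6, e7]
  linarith

end PB
end

section

/-!
PB, job B1: the PFR input. See table papers, id 374, step (4).
-/

set_option autoImplicit false

namespace PB

open Finset Pool.Agent.Lib.MP_dd2a7c_co

variable {G : Type} [AddCommGroup G] [Fintype G]

/-- JOB B1. Entropic PFR for a random variable `t` on `(Ω, p)` with `κ = H(T + T') - H(T)`.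

PROOF. As `exists_sub_step` in `Pool/Agent/Lib/MP_dd2a7c_co/WeakQuot.lean` (copy its proof): `Module (ZMod 2) G` by
`AddCommGroup.zmodModule`, `μ = law p t`, `entropic_main (R := ZMod 2) (sumUnits_zmod 2)` gives `H, x` with
`DD (ZMod 2) μ (unif H x) ≤ 4 ^ 11 * DD (ZMod 2) μ μ`, `DD_two`: `DD μ μ = Hs μ μ id id - Hd μ = κ`. `contraction` to the quotient
(where `unif H x` has entropy `0`) and `ent_le_Hs_left` give `ent (T mod H) / 2 ≤ 4 ^ 11 κ`; `ent_le_Hs_right` gives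
`log |H| ≤ (Hd μ + log |H|) / 2 + 4 ^ 11 κ`. -/
theorem pfr_sub (h2 : ∀ x : G, x + x = 0) {Ω : Type} [Fintype Ω] {p : Ω → ℝ} (hp : IsProb p) (t : Ω → G) :
    ∃ H : AddSubgroup G,
      ent p (fun ω => (QuotientAddGroup.mk (t ω) : G ⧸ H)) ≤ 2 * KC * (Hs p p t t - ent p t) ∧
      Real.log (Nat.card H) ≤ ent p t + 2 * KC * (Hs p p t t - ent p t) := by
  have h2' : ∀ z : G, 2 • z = 0 := fun z => by rw [two_nsmul]; exact h2 z
  let _ : Module (ZMod 2) G := AddCommGroup.zmodModule h2'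
  set κ := Hs p p t t - ent p t with hκ
  set μ := law p t with hμdef
  have hμ : IsProb μ := isProb_law hp t
  have hHμ : Hd μ = ent p t := Hd_law p t
  have hself : DD (ZMod 2) μ μ = κ := by
    rw [DD_two, hHμ]
    have e1 : Hs μ μ id id = Hs p p t t := by
      have : Hs μ μ id id = ent (law (prod p p) (fun ω => (t ω.1, t ω.2)))
          (fun z : G × G => z.1 + z.2) := by
        rw [law_prod]
        rfl
      rw [this, ent_law]
      rfl
    rw [e1, hκ]
    ring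
  obtain ⟨H', x, hH'⟩ := entropic_main (R := ZMod 2) (sumUnits_zmod 2) hμ
  obtain ⟨hυ, hHυ⟩ := Hd_unif H' x
  set υ := unif H' x with hυdef
  have hD : Hs μ υ id id - (Hd μ + Hd υ) / 2 ≤ KC * κ := by
    rw [← DD_two, ← hself]
    exact hH'
  refine ⟨H', ?_, ?_⟩
  · have c := contraction hμ hυ id id (QuotientAddGroup.mk' H')
    have c0 : ent υ (fun ω => QuotientAddGroup.mk' H' (id ω)) = 0 := by
      have : ent υ (fun ω => QuotientAddGroup.mk' H' (id ω)) = ent υ (fun _ => ()) := by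
        refine ent_congr _ _ fun ω ω' h1 h1' => ?_
        simp only [iff_true]
        have m1 : ∀ z : G, υ z ≠ 0 → z - x ∈ H' := by
          intro z hz
          by_contra hc
          apply hz
          rw [hυdef]
          unfold unif
          rw [if_neg hc]
        have : -ω + ω' ∈ H' := by
          have := H'.sub_mem (m1 ω' h1') (m1 ω h1)
          have e : ω' - x - (ω - x) = -ω + ω' := by abel
          rwa [e] at this
        exact QuotientAddGroup.eq.2 this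
      rw [this, ent_const hυ]
    have c1 := ent_le_Hs_left hμ hυ (fun ω => QuotientAddGroup.mk' H' (id ω))
      (fun ω => QuotientAddGroup.mk' H' (id ω))
    have c2 : ent μ (fun ω => QuotientAddGroup.mk' H' (id ω)) =
        ent p (fun ω => (QuotientAddGroup.mk (t ω) : G ⧸ H')) := by
      rw [hμdef, ent_law]
      rfl
    have c3 : Hd μ = ent μ id := rfl
    have c4 : Hd υ = ent υ id := rfl
    rw [c0, c2] at c
    rw [c2] at c1
    linarith
  · have c1 := ent_le_Hs_right hμ hυ id id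
    have c4 : Hd υ = ent υ id := rfl
    rw [← c4, hHυ] at c1
    rw [hHυ] at hD
    rw [hHμ] at hD
    linarith

end PB
end
end
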