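import Pool.Agent.Lib.MP_dd2a7c_co.WeakQuot

/-!
PB (polynomial Bogolyubov with few summands), definitions. See table papers, id 374.

A `CV G` is a `G`-valued random variable `f` together with a label `z` on a finite probability space.
`S B` is the sum of two independent copies (label: the two labels), `W B` is the fibre: the first of two
independent copies, the label being the sum and the two labels.
-/

set_option autoImplicit false

namespace PB

open Finset Pool.Agent.Lib.MP_dd2a7c_co

noncomputable section

/-- A `G`-valued random variable `f` with a label `z`, on a finite probability space. -/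
structure CV (G : Type) where
  /-- the sample space -/
  Ω : Type
  [ft : Fintype Ω]
  /-- the weights -/
  p : Ω → ℝ
  hp : IsProb p
  /-- the variable -/
  f : Ω → G
  /-- the type of labels -/
  L : Type
  /-- the label -/
  z : Ω → L

attribute [instance] CV.ft

variable {G : Type}

/-- A variable without label. -/
def ofLaw [Fintype G] (ν : G → ℝ) (hν : IsProb ν) : CV G := ⟨G, ν, hν, id, Unit, fun _ => ()⟩

/-- The conditional entropy `H(B | Z)`. -/
def CV.hc (B : CV G) : ℝ := ent B.p (fun ω => (B.f ω, B.z ω)) - ent B.p B.z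

/-- `D(B) = log |G| - H(B | Z)`. -/
def CV.D [Fintype G] (B : CV G) : ℝ := Real.log (Fintype.card G) - B.hc

section grp

variable [AddCommGroup G]

/-- The sum of two independent copies. -/
def CV.S (B : CV G) : CV G where
  Ω := B.Ω × B.Ω
  p := prod B.p B.p
  hp := isProb_prod B.hp B.hp
  f := fun x => B.f x.1 + B.f x.2
  L := B.L × B.L
  z := fun x => (B.z x.1, B.z x.2)

/-- The fibre: the first of two independent copies given the sum. -/
def CV.W (B : CV G) : CV G where
  Ω := B.Ω × B.Ω
  p := prod B.p B.p
  hp := isProb_prod B.hp B.hp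
  f := fun x => B.f x.1
  L := G × B.L × B.L
  z := fun x => (B.f x.1 + B.f x.2, B.z x.1, B.z x.2)

variable [Fintype G]

/-- `δ(B) = H(X + B | Z) - H(B | Z)`, `X` of law `μ` independent of `(B, Z)`. -/
def CV.del (μ : G → ℝ) (B : CV G) : ℝ :=
  ent (prod μ B.p) (fun x => (x.1 + B.f x.2, B.z x.2)) - ent B.p (fun ω => (B.f ω, B.z ω))

/-- `h(B) = I(X + B₁ : X + B₂ | Z₁, Z₂)`. -/
def CV.h (μ : G → ℝ) (B : CV G) : ℝ :=
  2 * ent (prod μ B.p) (fun x => (x.1 + B.f x.2, B.z x.2)) -
    ent (prod μ (prod B.p B.p))
      (fun x => ((x.1 + B.f x.2.1, B.z x.2.1), (x.1 + B.f x.2.2, B.z x.2.2)))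

end grp

/-- `B'` is a degraded version of `B`: the channel `x ↦ (x + B', Z')` is the channel `x ↦ (x + B, Z)` followed by a
random map `r(·, m)`, `m` of law `q`. -/
def Deg [AddCommGroup G] (B B' : CV G) : Prop :=
  ∃ (M : Type) (_ : Fintype M) (q : M → ℝ) (_ : IsProb q) (r : G × B.L → M → G × B'.L),
    ∀ (x : G) (y : G × B'.L),
      pr B'.p (fun ω => (x + B'.f ω, B'.z ω)) y =
        pr (prod B.p q) (fun a => r (x + B.f a.1, B.z a.1) a.2) y

/-- `H(X mod H) ≥ θ log [G : H]` for all subgroups `H`. -/
def Sub [AddCommGroup G] [Fintype G] (θ : ℝ) (μ : G → ℝ) : Prop :=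
  ∀ H : AddSubgroup G, θ * Real.log (H.index : ℝ) ≤ ent μ (fun x => (QuotientAddGroup.mk x : G ⧸ H))

/-- The PFR constant of the library. -/
def KC : ℝ := 4 ^ 11

end

end PB
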