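import Mathlib

section

/-!
PB, job R1: the abstract growth argument. See table papers, id 374, step (5).
-/

set_option autoImplicit false

namespace PB

/-- The abstract structure: `S`, `W` two operations, `D`, `δ`, `h` real functions, `R` a relation. -/
structure Sys {𝔅 : Type*} (θ K N : ℝ) (S W : 𝔅 → 𝔅) (D δ h : 𝔅 → ℝ) (R : 𝔅 → 𝔅 → Prop) : Prop where
  D_W : ∀ B, D (W B) = 2 * D B - D (S B)
  D_nonneg : ∀ B, 0 ≤ D B
  D_le : ∀ B, D B ≤ N
  D_S_le : ∀ B, D (S B) ≤ D B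
  D_S_le_S_W : ∀ B, D (S B) ≤ D (S (W B))
  δ_W : ∀ B, δ (W B) = 2 * δ B - h B
  δ_nonneg : ∀ B, 0 ≤ δ B
  h_nonneg : ∀ B, 0 ≤ h B
  refl : ∀ B, R B B
  trans : ∀ B B' B'', R B B' → R B' B'' → R B B''
  R_S : ∀ B, R B (S B)
  R_W : ∀ B B', R B B' → R (W B) (W B')
  h_le : ∀ B B', R B B' → h B' ≤ h B
  key : ∀ B, θ * D (S (W B)) - K * (D (S (W B)) - 2 * D (S B) + D (S (S B))) ≤ h (W B)

variable {𝔅 : Type*} {θ K N : ℝ} {S W : 𝔅 → 𝔅} {D δ h : 𝔅 → ℝ} {R : 𝔅 → 𝔅 → Prop}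

private theorem Sys.I1_ge (hs : Sys θ K N S W D δ h R) (hK : 0 < K) (B : 𝔅)
    (hh : h (W B) < θ / 2 * D (S B)) (hθ : 0 ≤ θ) :
    θ / (2 * K) * D (S B) ≤ D (S (W B)) - 2 * D (S B) + D (S (S B)) := by
  have h1 := hs.key B
  have h2 := mul_le_mul_of_nonneg_left (hs.D_S_le_S_W B) hθ
  have h3 : θ / 2 * D (S B) ≤ K * (D (S (W B)) - 2 * D (S B) + D (S (S B))) := by linarith
  have h4 : θ / (2 * K) * D (S B) = θ / 2 * D (S B) / K := by
    field_simp
  rw [h4, div_le_iff₀ hK]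
  linarith

/-- JOB R1. (a) One step: the ratio `D(S B) / D(B)` grows for `W B` or for `S B`; `ι = θ / (2 K)`.

PROOF. Write `D = D B`, `e = D (S B) > 0`, `e' = D (S (S B))`, `e₊ = D (S (W B)) ≥ e`, `D₊ = D (W B) = 2 D - e`, `0 < e ≤ D`,
`I₁ = e₊ - 2 e + e'`. `key` and `h (W B) < θ / 2 * e` give `K I₁ ≥ θ e₊ - h (W B) ≥ θ e / 2`, so `I₁ ≥ ι e`.
If `e' D ≤ e (e + ι / 2 * D)` (i.e. `e'/e ≤ e/D + ι/2`) use `W`: `e₊ = 2 e - e' + I₁` and `e₊ D ≥ 2 e D - e² - ι e D / 2 + ι e D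
= e (2 D - e) + ι e D / 2`, and `D ≥ D₊ / 2`, so `e₊ / D₊ ≥ (1 + ι / 4) e / D`. Otherwise use `S`:
`D (S (S B)) / D (S B) = e'/e > e/D + ι/2 ≥ (1 + ι/2) e/D` as `e ≤ D`. -/
theorem Sys.step (hs : Sys θ K N S W D δ h R) (hθ : 0 < θ) (hK : 0 < K) (B : 𝔅) (hB : 0 < D (S B))
    (hh : h (W B) < θ / 2 * D (S B)) :
    ((1 + θ / (2 * K) / 4) * (D (S B) / D B) ≤ D (S (W B)) / D (W B)) ∨
      ((1 + θ / (2 * K) / 4) * (D (S B) / D B) ≤ D (S (S B)) / D (S B)) := by
  have hι : 0 < θ / (2 * K) := by positivity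
  have hI := hs.I1_ge hK B hh (by positivity)
  have hDW := hs.D_W B
  have hle := hs.D_S_le B
  have hle2 := hs.D_S_le_S_W B
  generalize θ / (2 * K) = ι at hι hI ⊢
  generalize D (W B) = Dp at *
  generalize D (S (W B)) = ep at *
  generalize D (S (S B)) = e' at *
  generalize D (S B) = e at *
  generalize D B = d at *
  have hd : 0 < d := lt_of_lt_of_le hB hle
  have hDp : 0 < Dp := by linarith
  by_cases hc : e' * d ≤ e * (e + ι / 2 * d)
  · left
    rw [← mul_div_assoc, div_le_div_iff₀ hd hDp]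
    have h1 : (2 * e - e' + ι * e) * d ≤ ep * d :=
      mul_le_mul_of_nonneg_right (by linarith) hd.le
    have h2 : 0 ≤ ι * e * e := by positivity
    subst hDW
    nlinarith [h1, h2, hc]
  · right
    push Not at hc
    rw [← mul_div_assoc, div_le_div_iff₀ hd hB]
    have h2 : ι / 2 * e * e ≤ ι / 2 * e * d := mul_le_mul_of_nonneg_left hle (by positivity)
    have h3 : 0 ≤ ι * e * e := by positivity
    nlinarith [h2, hc, h3]

/-- (b) Iteration. If `D(S B₀) ≥ ρ₀ D(B₀)`, `D (S B₀) > 0` and `ρ₀ (1 + ι / 4) ^ r > 1` then some `1 ≤ l ≤ r + 1` has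
`h(W^l B₀) ≥ (θ / 2) ρ₀^r D(S B₀)`.

PROOF. Assume not. Prove by induction on `t ≤ r`: there are `B` and `w ≤ t` with `R (W^[w] B₀) B`, `D (S B) / D B ≥ ρ₀ (1 + ι/4)^t` and
`D (S B) ≥ ρ₀ ^ t * D (S B₀)` (`> 0`). Step: `h (W B) ≤ h (W^[w+1] B₀) < (θ/2) ρ₀^r D (S B₀) ≤ (θ/2) D (S B)` (`R_W`, `h_le`, `ρ₀ ≤ 1`
because `D (S B₀) ≤ D B₀`), so `step` applies; for `W B`: `D (S (W B)) ≥ D (S B)`, `R (W^[w+1] B₀) (W B)`; for `S B`:
`D (S (S B)) = ratio * D (S B) ≥ ρ₀ D (S B)`, `R (W^[w] B₀) (S B)` by `trans` and `R_S`. At `t = r` the ratio is `> 1`, contradicting `D_S_le`. -/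
theorem Sys.iter (hs : Sys θ K N S W D δ h R) (hθ : 0 < θ) (hK : 0 < K) {ρ₀ : ℝ} (hρ₀ : 0 < ρ₀) {r : ℕ}
    (hr : 1 < ρ₀ * (1 + θ / (2 * K) / 4) ^ r) (B₀ : 𝔅) (hB : 0 < D (S B₀)) (hρ : ρ₀ * D B₀ ≤ D (S B₀)) :
    ∃ l : ℕ, 1 ≤ l ∧ l ≤ r + 1 ∧ θ / 2 * ρ₀ ^ r * D (S B₀) ≤ h (W^[l] B₀) := by
  by_contra hcon
  push Not at hcon
  have hι : 0 < θ / (2 * K) := by positivity
  have hD0 : 0 < D B₀ := lt_of_lt_of_le hB (hs.D_S_le B₀)
  have hρ1 : ρ₀ ≤ 1 := by
    have h1 : ρ₀ * D B₀ ≤ 1 * D B₀ := by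
      rw [one_mul]
      exact hρ.trans (hs.D_S_le B₀)
    exact le_of_mul_le_mul_right h1 hD0
  have key : ∀ t : ℕ, t ≤ r → ∃ (B : 𝔅) (w : ℕ), w ≤ t ∧ R (W^[w] B₀) B ∧
      ρ₀ * (1 + θ / (2 * K) / 4) ^ t ≤ D (S B) / D B ∧ ρ₀ ^ t * D (S B₀) ≤ D (S B) := by
    intro t
    induction t with
    | zero =>
      intro _
      refine ⟨B₀, 0, le_refl _, hs.refl _, ?_, ?_⟩
      · rw [pow_zero, mul_one, le_div_iff₀ hD0]
        exact hρ
      · rw [pow_zero, one_mul]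
    | succ t ih =>
      intro ht
      obtain ⟨B, w, hw, hR, hrat, hDS⟩ := ih (by omega)
      have hpos : 0 < D (S B) := lt_of_lt_of_le (mul_pos (pow_pos hρ₀ t) hB) hDS
      have hRW : R (W^[w + 1] B₀) (W B) := by
        rw [Function.iterate_succ_apply']
        exact hs.R_W _ _ hR
      have hh : h (W B) < θ / 2 * D (S B) := by
        have h1 := hs.h_le _ _ hRW
        have h2 := hcon (w + 1) (by omega) (by omega)
        have h3 : ρ₀ ^ r ≤ ρ₀ ^ t := pow_le_pow_of_le_one hρ₀.le hρ1 (by omega)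
        have h4 : ρ₀ ^ r * D (S B₀) ≤ D (S B) :=
          (mul_le_mul_of_nonneg_right h3 hB.le).trans hDS
        have h5 : θ / 2 * (ρ₀ ^ r * D (S B₀)) ≤ θ / 2 * D (S B) :=
          mul_le_mul_of_nonneg_left h4 (by positivity)
        have h6 : θ / 2 * ρ₀ ^ r * D (S B₀) = θ / 2 * (ρ₀ ^ r * D (S B₀)) := by ring
        linarith
      have hfac : 0 ≤ 1 + θ / (2 * K) / 4 := by positivity
      have hrat2 : ρ₀ * (1 + θ / (2 * K) / 4) ^ (t + 1)
          ≤ (1 + θ / (2 * K) / 4) * (D (S B) / D B) := by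
        calc ρ₀ * (1 + θ / (2 * K) / 4) ^ (t + 1)
            = (1 + θ / (2 * K) / 4) * (ρ₀ * (1 + θ / (2 * K) / 4) ^ t) := by ring
          _ ≤ _ := mul_le_mul_of_nonneg_left hrat hfac
      rcases hs.step hθ hK B hpos hh with hW | hS
      · refine ⟨W B, w + 1, by omega, hRW, hrat2.trans hW, ?_⟩
        have h1 := hs.D_S_le_S_W B
        have h2 : ρ₀ ^ (t + 1) ≤ ρ₀ ^ t := pow_le_pow_of_le_one hρ₀.le hρ1 (by omega)
        exact ((mul_le_mul_of_nonneg_right h2 hB.le).trans hDS).trans h1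
      · refine ⟨S B, w, by omega, hs.trans _ _ _ hR (hs.R_S B), hrat2.trans hS, ?_⟩
        have h1 : ρ₀ ≤ D (S (S B)) / D (S B) := by
          refine le_trans ?_ (hrat2.trans hS)
          have h2 : (1 : ℝ) ≤ (1 + θ / (2 * K) / 4) ^ (t + 1) :=
            one_le_pow₀ (by linarith)
          nlinarith
        rw [le_div_iff₀ hpos] at h1
        calc ρ₀ ^ (t + 1) * D (S B₀) = ρ₀ * (ρ₀ ^ t * D (S B₀)) := by ring
          _ ≤ ρ₀ * D (S B) := mul_le_mul_of_nonneg_left hDS hρ₀.le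
          _ ≤ _ := h1
  obtain ⟨B, w, _, _, hrat, hDS⟩ := key r le_rfl
  have hpos : 0 < D (S B) := lt_of_lt_of_le (mul_pos (pow_pos hρ₀ r) hB) hDS
  have hDB : 0 < D B := lt_of_lt_of_le hpos (hs.D_S_le B)
  have h1 : D (S B) / D B ≤ 1 := by
    rw [div_le_one hDB]
    exact hs.D_S_le B
  linarith

/-- (c) Local claim, `ι = θ / (2 K)`, `ρ₀ = ι / 2`: `D(S W B) ≥ (2 + ι / 2) D(S B)` or some `1 ≤ l ≤ r + 1` has
`h(W^l B) ≥ (θ / 2) ρ₀ ^ (r + 1) D(S B)`.

PROOF. If `D (S B) = 0` the second alternative holds (`h_nonneg`), `l = 1`. If `h (W B) ≥ (θ / 2) D (S B)`: second alternative with `l = 1`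
(`ρ₀ ≤ 1`: `θ ≤ K` is assumed). Otherwise `key` gives `I₁ ≥ ι D (S B)` (as in (a)). If `D (S (S B)) ≤ ι / 2 * D (S B)`: first alternative, as
`D (S (W B)) = 2 D (S B) - D (S (S B)) + I₁`. Otherwise apply (b) to `B₀ = S B` and use `h (W^[l] (S B)) ≤ h (W^[l] B)` (`R_S`, `R_W` iterated, `h_le`). -/
theorem Sys.local_claim (hs : Sys θ K N S W D δ h R) (hθ : 0 < θ) (hK : 0 < K) (hθK : θ ≤ K) {r : ℕ}
    (hr : 1 < θ / (2 * K) / 2 * (1 + θ / (2 * K) / 4) ^ r) (B : 𝔅) :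
    (2 + θ / (2 * K) / 2) * D (S B) ≤ D (S (W B)) ∨
      ∃ l : ℕ, 1 ≤ l ∧ l ≤ r + 1 ∧ θ / 2 * (θ / (2 * K) / 2) ^ (r + 1) * D (S B) ≤ h (W^[l] B) := by
  have hι : 0 < θ / (2 * K) := by positivity
  have hι1 : θ / (2 * K) ≤ 1 := by
    rw [div_le_one (by positivity)]
    linarith
  have hρ1 : (θ / (2 * K) / 2) ^ (r + 1) ≤ 1 := pow_le_one₀ (by positivity) (by linarith)
  have hρ0 : 0 ≤ (θ / (2 * K) / 2) ^ (r + 1) := by positivity
  rcases (hs.D_nonneg (S B)).eq_or_lt with h0 | h0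
  · right
    refine ⟨1, le_refl _, by omega, ?_⟩
    rw [← h0, mul_zero]
    exact hs.h_nonneg _
  by_cases hh : h (W B) < θ / 2 * D (S B)
  · have hI := hs.I1_ge hK B hh (by positivity)
    by_cases hc : D (S (S B)) ≤ θ / (2 * K) / 2 * D (S B)
    · left
      have h1 : (2 + θ / (2 * K) / 2) * D (S B)
          = 2 * D (S B) - θ / (2 * K) / 2 * D (S B) + θ / (2 * K) * D (S B) := by ring
      linarith
    · right
      push Not at hc
      have hpos : 0 < D (S (S B)) := lt_trans (by positivity) hc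
      obtain ⟨l, hl1, hl2, hl⟩ := hs.iter hθ hK (ρ₀ := θ / (2 * K) / 2) (by positivity) hr (S B)
        hpos hc.le
      refine ⟨l, hl1, hl2, ?_⟩
      have hR : R (W^[l] B) (W^[l] (S B)) := by
        clear hl hl1 hl2
        induction l with
        | zero => exact hs.R_S B
        | succ l ih =>
          rw [Function.iterate_succ_apply', Function.iterate_succ_apply']
          exact hs.R_W _ _ ih
      refine le_trans ?_ (hl.trans (hs.h_le _ _ hR))
      have h2 : θ / 2 * (θ / (2 * K) / 2) ^ r * (θ / (2 * K) / 2 * D (S B))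
          ≤ θ / 2 * (θ / (2 * K) / 2) ^ r * D (S (S B)) :=
        mul_le_mul_of_nonneg_left hc.le (by positivity)
      calc θ / 2 * (θ / (2 * K) / 2) ^ (r + 1) * D (S B)
          = θ / 2 * (θ / (2 * K) / 2) ^ r * (θ / (2 * K) / 2 * D (S B)) := by ring
        _ ≤ _ := h2
  · right
    push Not at hh
    refine ⟨1, le_refl _, by omega, ?_⟩
    have h1 : θ / 2 * (θ / (2 * K) / 2) ^ (r + 1) * D (S B) ≤ θ / 2 * 1 * D (S B) := by
      gcongr
    rw [mul_one] at h1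
    exact h1.trans hh

end PB
end

section

/-!
PB, job R2: the summation. See table papers, id 374, steps (1), (6), (7).
-/

set_option autoImplicit false

namespace PB

/-- JOB R2. (a) Summation of real sequences. `a i = 2^{-i} e_i`, `g i = 2^{-i} h_i`.

PROOF. `A k := ∑ i < k, a i`. Summing the hypothesis: `A k ≤ lam (A k + a k - a 0) + C ∑_{i<k} ∑_{j≤r} g (i + j)` and the last double sum is
at most `(r + 1) * ∑_{i < k + r} g i ≤ (r + 1) * G`. So `(1 - lam) A k ≤ lam * b k + C (r + 1) G`, `D ≤ A k / 2 + b k`, `b k → 0`; let `k → ∞`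
(`ge_of_tendsto` or an `ε`-argument). -/
theorem seq_sum {D G lam C : ℝ} {r : ℕ} (hlam0 : 0 ≤ lam) (hlam1 : lam < 1) (hC : 0 ≤ C) (a g b : ℕ → ℝ)
    (ha0 : ∀ i, 0 ≤ a i) (hg0 : ∀ i, 0 ≤ g i) (hab : ∀ i, a i ≤ b i) (hb : Filter.Tendsto b Filter.atTop (nhds 0))
    (h1 : ∀ i, a i ≤ lam * a (i + 1) + C * ∑ j ∈ Finset.range (r + 1), g (i + j))
    (hG : ∀ k, ∑ i ∈ Finset.range k, g i ≤ G)
    (hD : ∀ k, D ≤ (∑ i ∈ Finset.range k, a i) / 2 + b k) :
    D ≤ C * (r + 1) * G / (1 - lam) / 2 := by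
  have hlam : 0 < 1 - lam := by linarith
  have hsum : ∀ k, (1 - lam) * ∑ i ∈ Finset.range k, a i ≤ lam * b k + C * (r + 1) * G := by
    intro k
    have e1 : ∑ i ∈ Finset.range k, a i ≤ ∑ i ∈ Finset.range k,
        (lam * a (i + 1) + C * ∑ j ∈ Finset.range (r + 1), g (i + j)) :=
      Finset.sum_le_sum fun i _ => h1 i
    rw [Finset.sum_add_distrib, ← Finset.mul_sum, ← Finset.mul_sum, Finset.sum_comm] at e1
    have e2 : ∑ i ∈ Finset.range k, a (i + 1) ≤ ∑ i ∈ Finset.range k, a i + b k := by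
      have e3 := Finset.sum_range_succ' a k
      rw [Finset.sum_range_succ] at e3
      have := ha0 0
      have := hab k
      linarith
    have e3 : ∑ j ∈ Finset.range (r + 1), ∑ i ∈ Finset.range k, g (i + j) ≤ (r + 1) * G := by
      have e4 : ∀ j ∈ Finset.range (r + 1), ∑ i ∈ Finset.range k, g (i + j) ≤ G := by
        intro j _
        have e5 := Finset.sum_range_add g j k
        have e6 : 0 ≤ ∑ i ∈ Finset.range j, g i := Finset.sum_nonneg fun i _ => hg0 i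
        have e7 := hG (j + k)
        have e8 : ∑ i ∈ Finset.range k, g (i + j) = ∑ i ∈ Finset.range k, g (j + i) :=
          Finset.sum_congr rfl fun i _ => by rw [add_comm]
        rw [e8]
        linarith
      have e5 := Finset.sum_le_sum e4
      rw [Finset.sum_const, Finset.card_range, nsmul_eq_mul] at e5
      push_cast at e5
      exact e5
    have e4 := mul_le_mul_of_nonneg_left e2 hlam0
    have e5 := mul_le_mul_of_nonneg_left e3 hC
    nlinarith [e1, e4, e5]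
  have hk : ∀ k, D ≤ (lam * b k + C * (r + 1) * G) / (1 - lam) / 2 + b k := by
    intro k
    have e1 : ∑ i ∈ Finset.range k, a i ≤ (lam * b k + C * (r + 1) * G) / (1 - lam) := by
      rw [le_div_iff₀ hlam, mul_comm]
      exact hsum k
    have := hD k
    linarith
  have hlim : Filter.Tendsto (fun k => (lam * b k + C * (r + 1) * G) / (1 - lam) / 2 + b k)
      Filter.atTop (nhds ((lam * 0 + C * (r + 1) * G) / (1 - lam) / 2 + 0)) :=
    (((hb.const_mul lam).add_const _).div_const _ |>.div_const _).add hb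
  rw [mul_zero, zero_add, add_zero] at hlim
  exact ge_of_tendsto' hlim hk

/-- (b) The abstract theorem.

PROOF. `ι = θ / (2 K)`, `r` with `1 < ι / 2 * (1 + ι / 4) ^ r` (Archimedean), `c₂ = θ / 2 * (ι / 2) ^ (r + 1)`. For `B` put `a i = D (S (W^[i] B)) / 2^i`,
`g i = h (W^[i] B) / 2^i`, `b i = N / 2^i`. Telescoping: `D B = ∑_{i<k} a i / 2 + D (W^[k] B) / 2^k` and
`δ B = ∑_{i<k} g i / 2 + δ (W^[k] B) / 2^k` (induction on `k`, `D_W`, `δ_W`), so `D B ≤ ∑_{i<k} a i / 2 + b k` and `∑_{i<k} g i ≤ 2 δ B`. By `local_claim`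
for `W^[i] B`: either `a i ≤ (1 + ι / 4)⁻¹ a (i + 1)` or `a i ≤ c₂⁻¹ 2^(r+1) g (i + l)` for some `l ≤ r + 1`
(`(W^[l]) (W^[i] B) = W^[i + l] B`). So (a) applies with `lam = (1 + ι/4)⁻¹`, `C = 2 ^ (r + 1) / c₂` and `r + 1` in place of `r`:
`D B ≤ C (r + 2) / (1 - lam) * δ B`. Take `ε = (1 - lam) / (C (r + 2))`. -/
theorem abstract_main {θ K : ℝ} (hθ : 0 < θ) (hK : 0 < K) (hθK : θ ≤ K) :
    ∃ ε : ℝ, 0 < ε ∧ ∀ (𝔅 : Type 1) (N : ℝ) (S W : 𝔅 → 𝔅) (D δ h : 𝔅 → ℝ) (R : 𝔅 → 𝔅 → Prop),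
      Sys θ K N S W D δ h R → ∀ B, ε * D B ≤ δ B := by
  have hι : 0 < θ / (2 * K) := by positivity
  obtain ⟨r, hr⟩ := pow_unbounded_of_one_lt (2 / (θ / (2 * K)))
    (show 1 < 1 + θ / (2 * K) / 4 by linarith)
  have hr' : 1 < θ / (2 * K) / 2 * (1 + θ / (2 * K) / 4) ^ r := by
    rw [div_lt_iff₀ hι] at hr
    linarith
  set ι := θ / (2 * K) with hιd
  set c₂ : ℝ := θ / 2 * (ι / 2) ^ (r + 1) with hc₂
  have hc₂0 : 0 < c₂ := by positivity
  set lam : ℝ := (1 + ι / 4)⁻¹ with hlam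
  have h1ι : 1 < 1 + ι / 4 := by linarith
  have hlam0 : 0 < lam := by positivity
  have hlam1 : lam < 1 := inv_lt_one_of_one_lt₀ h1ι
  set C : ℝ := 2 ^ (r + 1) / c₂ with hC
  have hC0 : 0 < C := by positivity
  have h1lam : 0 < 1 - lam := by linarith
  have hden : 0 < C * (r + 2) := by positivity
  refine ⟨(1 - lam) / (C * (r + 2)), div_pos h1lam hden, ?_⟩
  intro 𝔅 N S W D δ h R hs B
  have hpow : ∀ i : ℕ, (0 : ℝ) < 2 ^ i := fun i => by positivity
  have hWs : ∀ i, W^[i + 1] B = W (W^[i] B) := fun i => Function.iterate_succ_apply' W i B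
  have hδ : ∀ k, δ B = (∑ i ∈ Finset.range k, h (W^[i] B) / 2 ^ i) / 2 + δ (W^[k] B) / 2 ^ k := by
    intro k
    induction k with
    | zero => simp
    | succ k ih =>
      have e1 := hs.δ_W (W^[k] B)
      have e2 : δ (W^[k] B) / 2 ^ k =
          h (W^[k] B) / 2 ^ k / 2 + δ (W^[k + 1] B) / 2 ^ (k + 1) := by
        rw [hWs, e1, pow_succ]
        have := (hpow k).ne'
        field_simp
        ring
      rw [Finset.sum_range_succ, add_div]
      linarith
  have hDt : ∀ k, D B = (∑ i ∈ Finset.range k, D (S (W^[i] B)) / 2 ^ i) / 2 +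
      D (W^[k] B) / 2 ^ k := by
    intro k
    induction k with
    | zero => simp
    | succ k ih =>
      have e1 := hs.D_W (W^[k] B)
      have e2 : D (W^[k] B) / 2 ^ k =
          D (S (W^[k] B)) / 2 ^ k / 2 + D (W^[k + 1] B) / 2 ^ (k + 1) := by
        rw [hWs, e1, pow_succ]
        have := (hpow k).ne'
        field_simp
        ring
      rw [Finset.sum_range_succ, add_div]
      linarith
  have key := seq_sum (D := D B) (G := 2 * δ B) (r := r + 1) hlam0.le hlam1 hC0.le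
    (fun i => D (S (W^[i] B)) / 2 ^ i) (fun i => h (W^[i] B) / 2 ^ i) (fun i => N / 2 ^ i)
    (fun i => div_nonneg (hs.D_nonneg _) (hpow i).le)
    (fun i => div_nonneg (hs.h_nonneg _) (hpow i).le)
    (fun i => div_le_div_of_nonneg_right (hs.D_le _) (hpow i).le)
    (by
      have e1 : Filter.Tendsto (fun i : ℕ => N * (1 / 2 : ℝ) ^ i) Filter.atTop (nhds (N * 0)) :=
        (tendsto_pow_atTop_nhds_zero_of_lt_one (by norm_num) (by norm_num)).const_mul N
      rw [mul_zero] at e1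
      refine e1.congr fun i => ?_
      rw [one_div, inv_pow, div_eq_mul_inv])
    (by
      intro i
      have hg : ∀ j, 0 ≤ h (W^[i + j] B) / 2 ^ (i + j) := fun j =>
        div_nonneg (hs.h_nonneg _) (hpow _).le
      rcases hs.local_claim hθ hK hθK hr' (W^[i] B) with h1 | ⟨l, hl1, hl2, hl⟩
      · have e1 : D (S (W^[i] B)) / 2 ^ i ≤ lam * (D (S (W^[i + 1] B)) / 2 ^ (i + 1)) := by
          rw [hlam, inv_mul_eq_div, le_div_iff₀ (by positivity), hWs, pow_succ,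
            div_mul_eq_mul_div, div_le_div_iff₀ (hpow i) (by positivity)]
          have e2 : D (S (W^[i] B)) * (1 + ι / 4) * 2 ≤ D (S (W (W^[i] B))) := by
            linarith only [h1]
          calc D (S (W^[i] B)) * (1 + ι / 4) * (2 ^ i * 2)
              = (D (S (W^[i] B)) * (1 + ι / 4) * 2) * 2 ^ i := by ring
            _ ≤ _ := mul_le_mul_of_nonneg_right e2 (hpow i).le
        have e2 : 0 ≤ C * ∑ j ∈ Finset.range (r + 1 + 1), h (W^[i + j] B) / 2 ^ (i + j) :=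
          mul_nonneg hC0.le (Finset.sum_nonneg fun j _ => hg j)
        linarith
      · have e0 : W^[l] (W^[i] B) = W^[i + l] B := by
          rw [← Function.iterate_add_apply, add_comm]
        rw [e0] at hl
        have e1 : D (S (W^[i] B)) / 2 ^ i ≤ C * (h (W^[i + l] B) / 2 ^ (i + l)) := by
          have e2 : D (S (W^[i] B)) ≤ h (W^[i + l] B) / c₂ := by
            rw [le_div_iff₀ hc₂0, mul_comm]
            exact hl
          have e3 : (2 : ℝ) ^ l ≤ 2 ^ (r + 1) := pow_le_pow_right₀ (by norm_num) hl2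
          have e4 : C * (h (W^[i + l] B) / 2 ^ (i + l)) =
              h (W^[i + l] B) / c₂ * (2 ^ (r + 1) / 2 ^ l) / 2 ^ i := by
            rw [hC, pow_add (2 : ℝ) i l]
            have := (hpow i).ne'
            have := (hpow l).ne'
            field_simp
          rw [e4]
          apply div_le_div_of_nonneg_right _ (hpow i).le
          refine e2.trans ?_
          apply le_mul_of_one_le_right (div_nonneg (hs.h_nonneg _) hc₂0.le)
          rw [one_le_div (hpow l)]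
          exact e3
        have e2 : h (W^[i + l] B) / 2 ^ (i + l) ≤
            ∑ j ∈ Finset.range (r + 1 + 1), h (W^[i + j] B) / 2 ^ (i + j) :=
          Finset.single_le_sum (f := fun j => h (W^[i + j] B) / 2 ^ (i + j)) (fun j _ => hg j)
            (Finset.mem_range.2 (by omega))
        have e3 := mul_le_mul_of_nonneg_left e2 hC0.le
        have e4 : 0 ≤ lam * (D (S (W^[i + 1] B)) / 2 ^ (i + 1)) :=
          mul_nonneg hlam0.le (div_nonneg (hs.D_nonneg _) (hpow _).le)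
        linarith)
    (by
      intro k
      have e1 := hδ k
      have e2 : 0 ≤ δ (W^[k] B) / 2 ^ k := div_nonneg (hs.δ_nonneg _) (hpow k).le
      linarith)
    (by
      intro k
      have e1 := hDt k
      have e2 : D (W^[k] B) / 2 ^ k ≤ N / 2 ^ k :=
        div_le_div_of_nonneg_right (hs.D_le _) (hpow k).le
      linarith)
  rw [div_mul_eq_mul_div, div_le_iff₀ hden]
  have e1 : C * (((r + 1 : ℕ) : ℝ) + 1) * (2 * δ B) / (1 - lam) / 2 =
      δ B * (C * (r + 2)) / (1 - lam) := by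
    push_cast
    field_simp
    ring
  rw [e1, le_div_iff₀ h1lam] at key
  linarith

end PB
end
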