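import Pool.Agent.Lib.MP_c6cae0_co.PB.Defs
import Pool.Agent.Lib.MP_c6cae0_co.PB.B1
import Pool.Agent.Lib.MP_c6cae0_co.PB.A1
import Pool.Agent.Lib.MP_c6cae0_co.PB.R2

section

/-!
PB, job A2: the basic identities for `δ` and `h`. See table papers, id 374, step (1).
-/

set_option autoImplicit false

namespace PB

open Finset Pool.Agent.Lib.MP_dd2a7c_co

variable {G : Type} [AddCommGroup G] [Fintype G] {μ : G → ℝ}

/-- JOB A2. (a) `δ(WB) = 2 δ(B) - h(B)`.

PROOF. `(x + f₁, (f₁ + f₂, z₁, z₂))` and `((x + f₁, z₁), (x + f₂, z₂))` determine each other since `2 f₁ = 0`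
(`ent_congr`; `x + f₂ = (x + f₁) + (f₁ + f₂)`), and `ent (prod p p) (f₁, (f₁ + f₂, z₁, z₂)) = 2 ent p (f, z)`. -/
theorem del_W (h2 : ∀ x : G, x + x = 0) (hμ : IsProb μ) (B : CV G) :
    B.W.del μ = 2 * B.del μ - B.h μ := by
  have hBp := B.hp
  have e1 : ent (prod μ (prod B.p B.p))
      (fun x => (x.1 + B.f x.2.1, (B.f x.2.1 + B.f x.2.2, B.z x.2.1, B.z x.2.2))) =
      ent (prod μ (prod B.p B.p))
        (fun x => ((x.1 + B.f x.2.1, B.z x.2.1), (x.1 + B.f x.2.2, B.z x.2.2))) := by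
    refine ent_congr _ _ fun ω ω' _ _ => ?_
    simp only [Prod.mk.injEq]
    constructor
    · rintro ⟨a1, a2, a3, a4⟩
      refine ⟨⟨a1, a3⟩, ?_, a4⟩
      have k : ∀ x a b : G, x + b = (x + a) + (a + b) := by
        intro x a b
        rw [show (x + a) + (a + b) = x + b + (a + a) by abel, h2, add_zero]
      rw [k ω.1 (B.f ω.2.1) (B.f ω.2.2), k ω'.1 (B.f ω'.2.1) (B.f ω'.2.2), a1, a2]
    · rintro ⟨⟨a1, a3⟩, a2, a4⟩
      refine ⟨a1, ?_, a3, a4⟩
      have k : ∀ x a b : G, a + b = (x + a) + (x + b) := by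
        intro x a b
        rw [show (x + a) + (x + b) = a + b + (x + x) by abel, h2, add_zero]
      rw [k ω.1 (B.f ω.2.1) (B.f ω.2.2), k ω'.1 (B.f ω'.2.1) (B.f ω'.2.2), a1, a2]
  have e2 : ent (prod B.p B.p)
      (fun ω => (B.f ω.1, (B.f ω.1 + B.f ω.2, B.z ω.1, B.z ω.2))) =
      ent (prod B.p B.p) (fun ω => ((B.f ω.1, B.z ω.1), (B.f ω.2, B.z ω.2))) := by
    refine ent_congr _ _ fun ω ω' _ _ => ?_
    simp only [Prod.mk.injEq]
    constructor
    · rintro ⟨a1, a2, a3, a4⟩
      refine ⟨⟨a1, a3⟩, ?_, a4⟩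
      rw [a1] at a2
      exact add_left_cancel a2
    · rintro ⟨⟨a1, a3⟩, a2, a4⟩
      exact ⟨a1, by rw [a1, a2], a3, a4⟩
  have e3 := ent_prod hBp hBp (fun ω => (B.f ω, B.z ω)) (fun ω => (B.f ω, B.z ω))
  have e4 : B.W.del μ = ent (prod μ (prod B.p B.p))
      (fun x => (x.1 + B.f x.2.1, (B.f x.2.1 + B.f x.2.2, B.z x.2.1, B.z x.2.2))) -
      ent (prod B.p B.p) (fun ω => (B.f ω.1, (B.f ω.1 + B.f ω.2, B.z ω.1, B.z ω.2))) := rfl
  rw [e4, e1, e2, e3]
  unfold CV.del CV.h
  ring

/-- (b) `0 ≤ δ(B)`. PROOF. `H(X + B | Z) ≥ H(X + B | Z, X) = H(B | Z)`: `submod'` for `(x + f, z)` and `x` over `()`: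
`ent (x, f, z) + 0 ≤ ent (x + f, z) + ent x`, `ent (x, (f, z)) = ent x + ent (f, z)`. -/
theorem del_nonneg (hμ : IsProb μ) (B : CV G) : 0 ≤ B.del μ := by
  have hp := isProb_prod hμ B.hp
  have e1 := submod' hp (fun x => (x.1 + B.f x.2, B.z x.2)) (fun x => x.1) (fun _ => ())
    (fun x => (x.1, (B.f x.2, B.z x.2))) (fun _ _ _ => rfl) (fun _ _ _ => rfl)
    (fun ω ω' _ _ h1 h3 => by
      simp only [Prod.mk.injEq] at h1 ⊢
      refine ⟨h3, ?_, h1.2⟩
      have := h1.1
      rw [h3] at this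
      exact add_left_cancel this)
  have e2 := ent_prod hμ B.hp (fun x => x) (fun ω => (B.f ω, B.z ω))
  have e3 := ent_prod_fst μ B.hp (fun x => x)
  rw [ent_const hp, add_zero, e2, e3] at e1
  unfold CV.del
  linarith

/-- (c) `0 ≤ h(B)`. PROOF. `ent_pair_le` and the two marginals (`ent_three_12`, `ent_three_13`). -/
theorem h_nonneg (hμ : IsProb μ) (B : CV G) : 0 ≤ B.h μ := by
  have hp := isProb_prod hμ (isProb_prod B.hp B.hp)
  have e1 := ent_pair_le hp (fun x => (x.1 + B.f x.2.1, B.z x.2.1))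
    (fun x => (x.1 + B.f x.2.2, B.z x.2.2))
  have e2 := ent_three_12 μ B.hp (fun x => (x.1 + B.f x.2, B.z x.2))
  have e3 := ent_three_13 μ B.hp (fun x => (x.1 + B.f x.2, B.z x.2))
  dsimp only at e2 e3
  rw [e2, e3] at e1
  unfold CV.h
  linarith

/-- (d) For a variable without label. PROOF. unfold; `(x + y, ())` and `x + y` determine each other (`ent_congr`),
`Hd_conv`. -/
theorem del_ofLaw (ν : G → ℝ) (hν : IsProb ν) : (ofLaw ν hν).del μ = Hd (conv μ ν) - Hd ν := by
  have e : (ofLaw ν hν).del μ = ent (prod μ ν) (fun x => (x.1 + x.2, ())) -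
      ent ν (fun ω => (ω, ())) := rfl
  rw [e, Hd_conv]
  congr 1
  · exact ent_congr _ _ fun ω ω' _ _ => by simp
  · exact ent_congr _ _ fun ω ω' _ _ => by simp

/-- (e) For a variable without label: `D`. PROOF. unfold, `ent_const`. -/
theorem D_ofLaw (ν : G → ℝ) (hν : IsProb ν) : (ofLaw ν hν).D = Real.log (Fintype.card G) - Hd ν := by
  have e : (ofLaw ν hν).D = Real.log (Fintype.card G) -
      (ent ν (fun ω => (ω, ())) - ent ν (fun _ => ())) := rfl
  rw [e, ent_const hν, sub_zero]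
  congr 1
  exact ent_congr _ _ fun ω ω' _ _ => by simp

end PB
end

section

section

/-!
PB, job A5: data processing for `h`. See table papers, id 374, step (2).
-/

set_option autoImplicit false

namespace PB

open Finset Pool.Agent.Lib.MP_dd2a7c_co

variable {G : Type} [AddCommGroup G] [Fintype G] {μ : G → ℝ}

section pbA5aux

open scoped Classical

variable {Ω Ω' Ω'' α β : Type*} [Fintype Ω] [Fintype Ω'] [Fintype Ω'']

private lemma pbA5_ent_sum (p : Ω → ℝ) (f : Ω → α) (S : Finset α) (hS : ∀ ω, f ω ∈ S) :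
    ent p f = -∑ a ∈ S, pr p f a * Real.log (pr p f a) := by
  unfold ent
  congr 1
  have h1 : ∀ a ∈ S, pr p f a * Real.log (pr p f a) =
      ∑ ω, (if f ω = a then p ω * Real.log (pr p f (f ω)) else 0) := by
    intro a _
    conv_lhs => rw [show pr p f a = ∑ ω, if f ω = a then p ω else 0 from rfl]
    rw [sum_mul]
    refine sum_congr rfl fun ω _ => ?_
    by_cases h : f ω = a
    · rw [if_pos h, if_pos h, h]
      rfl
    · rw [if_neg h, if_neg h, zero_mul]
  rw [sum_congr rfl h1, sum_comm]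
  refine sum_congr rfl fun ω _ => ?_
  rw [sum_ite_eq, if_pos (hS ω)]

private lemma pbA5_ent_eq (p : Ω → ℝ) (f : Ω → α) (p' : Ω' → ℝ) (f' : Ω' → α)
    (h : ∀ a, pr p f a = pr p' f' a) : ent p f = ent p' f' := by
  rw [pbA5_ent_sum p f (image f univ ∪ image f' univ)
      (fun ω => mem_union_left _ (mem_image_of_mem _ (mem_univ _))),
    pbA5_ent_sum p' f' (image f univ ∪ image f' univ)
      (fun ω => mem_union_right _ (mem_image_of_mem _ (mem_univ _)))]
  congr 1
  refine sum_congr rfl fun a _ => ?_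
  rw [h a]

private lemma pbA5_pr_fib (m : Ω → ℝ) (p : Ω' → ℝ) (F : Ω × Ω' → α) (a : α) :
    pr (prod m p) F a = ∑ x, m x * pr p (fun w => F (x, w)) a := by
  unfold pr
  rw [Fintype.sum_prod_type]
  refine sum_congr rfl fun x _ => ?_
  rw [mul_sum]
  refine sum_congr rfl fun w _ => ?_
  by_cases h : F (x, w) = a <;> simp [h, prod]

private lemma pbA5_pr_fib_congr (m : Ω → ℝ) (p : Ω' → ℝ) (p' : Ω'' → ℝ) (F : Ω × Ω' → α)
    (F' : Ω × Ω'' → α) (a : α)
    (h : ∀ x, pr p (fun w => F (x, w)) a = pr p' (fun w => F' (x, w)) a) :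
    pr (prod m p) F a = pr (prod m p') F' a := by
  rw [pbA5_pr_fib, pbA5_pr_fib]
  exact sum_congr rfl fun x _ => by rw [h x]

/-- Data processing with two conditionally independent copies. -/
private lemma pbA5_dp {X M A R : Type*} [Fintype X] [Fintype M] {m : X → ℝ} {p : Ω → ℝ}
    {q : M → ℝ} (hm : IsProb m) (hp : IsProb p) (hq : IsProb q) (O : X × Ω → A)
    (r : A → M → R) :
    2 * ent (prod m (prod p q)) (fun x => r (O (x.1, x.2.1)) x.2.2) -
        ent (prod m (prod (prod p q) (prod p q)))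
          (fun x => (r (O (x.1, x.2.1.1)) x.2.1.2, r (O (x.1, x.2.2.1)) x.2.2.2)) ≤
      2 * ent (prod m p) O - ent (prod m (prod p p)) (fun x => (O (x.1, x.2.1), O (x.1, x.2.2))) := by
  have hpq : IsProb (prod p q) := isProb_prod hp hq
  have hP : IsProb (prod m (prod (prod p q) (prod p q))) := isProb_prod hm (isProb_prod hpq hpq)
  -- the four variables
  let O1 : X × ((Ω × M) × (Ω × M)) → A × M := fun x => (O (x.1, x.2.1.1), x.2.1.2)
  let O2 : X × ((Ω × M) × (Ω × M)) → A × M := fun x => (O (x.1, x.2.2.1), x.2.2.2)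
  let R1 : X × ((Ω × M) × (Ω × M)) → R := fun x => r (O (x.1, x.2.1.1)) x.2.1.2
  let R2 : X × ((Ω × M) × (Ω × M)) → R := fun x => r (O (x.1, x.2.2.1)) x.2.2.2
  have s1 := submod' hP O1 (fun x => (R1 x, R2 x)) R1 (fun x => (O1 x, R2 x))
    (fun x y h => by
      simp only [O1, Prod.mk.injEq] at h
      simp only [R1, h.1, h.2])
    (fun x y h => (Prod.ext_iff.1 h).1)
    (fun x y _ _ h h' => Prod.ext h (Prod.ext_iff.1 h').2)
  have s2 := submod' hP O2 (fun x => (O1 x, R2 x)) R2 (fun x => (O1 x, O2 x))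
    (fun x y h => by
      simp only [O2, Prod.mk.injEq] at h
      simp only [R2, h.1, h.2])
    (fun x y h => (Prod.ext_iff.1 h).2)
    (fun x y _ _ h h' => Prod.ext (Prod.ext_iff.1 h').1 h)
  -- marginals
  have m1 : ent (prod m (prod (prod p q) (prod p q))) R1 =
      ent (prod m (prod p q)) (fun x => r (O (x.1, x.2.1)) x.2.2) :=
    ent_three_12 m hpq (fun x => r (O (x.1, x.2.1)) x.2.2)
  have m2 : ent (prod m (prod (prod p q) (prod p q))) R2 =
      ent (prod m (prod p q)) (fun x => r (O (x.1, x.2.1)) x.2.2) :=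
    ent_three_13 m hpq (fun x => r (O (x.1, x.2.1)) x.2.2)
  have m3 : ent (prod m (prod (prod p q) (prod p q))) O1 =
      ent (prod m (prod p q)) (fun x => (O (x.1, x.2.1), x.2.2)) :=
    ent_three_12 m hpq (fun x => (O (x.1, x.2.1), x.2.2))
  have m4 : ent (prod m (prod (prod p q) (prod p q))) O2 =
      ent (prod m (prod p q)) (fun x => (O (x.1, x.2.1), x.2.2)) :=
    ent_three_13 m hpq (fun x => (O (x.1, x.2.1), x.2.2))
  -- the randomness is independent
  have d1 : ent (prod m (prod p q)) (fun x => (O (x.1, x.2.1), x.2.2)) =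
      ent (prod m p) O + ent q id := by
    rw [← ent_prod (isProb_prod hm hp) hq O id]
    refine ent_of_equiv (Equiv.prodAssoc X Ω M).symm (fun x => ?_) _ _ (fun x => rfl)
    simp [prod, mul_assoc]
  have d2 : ent (prod m (prod (prod p q) (prod p q))) (fun x => (O1 x, O2 x)) =
      ent (prod m (prod p p)) (fun x => (O (x.1, x.2.1), O (x.1, x.2.2))) +
        (ent q id + ent q id) := by
    rw [← ent_prod hq hq id id, ← ent_prod (isProb_prod hm (isProb_prod hp hp)) (isProb_prod hq hq)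
      (fun x => (O (x.1, x.2.1), O (x.1, x.2.2))) (fun x => (id x.1, id x.2))]
    let e : X × ((Ω × M) × (Ω × M)) ≃ (X × (Ω × Ω)) × (M × M) :=
      { toFun := fun x => ((x.1, (x.2.1.1, x.2.2.1)), (x.2.1.2, x.2.2.2))
        invFun := fun y => (y.1.1, ((y.1.2.1, y.2.1), (y.1.2.2, y.2.2)))
        left_inv := fun x => rfl
        right_inv := fun y => rfl }
    have h1 : ent (prod m (prod (prod p q) (prod p q))) (fun x => (O1 x, O2 x)) =
        ent (prod m (prod (prod p q) (prod p q)))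
          (fun x => ((O (x.1, x.2.1.1), O (x.1, x.2.2.1)), (x.2.1.2, x.2.2.2))) := by
      refine ent_congr _ _ fun x y _ _ => ?_
      simp only [O1, O2, Prod.mk.injEq]
      tauto
    rw [h1]
    refine ent_of_equiv e (fun x => ?_) _ _ (fun x => rfl)
    simp only [e, Equiv.coe_fn_mk, prod]
    ring
  rw [m3, d1, m1] at s1
  rw [m4, d1, m2, d2] at s2
  have e1 : ent (prod m (prod (prod p q) (prod p q)))
      (fun x => (r (O (x.1, x.2.1.1)) x.2.1.2, r (O (x.1, x.2.2.1)) x.2.2.2)) =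
      ent (prod m (prod (prod p q) (prod p q))) (fun x => (R1 x, R2 x)) := rfl
  rw [e1]
  linarith

end pbA5aux

/-- JOB A5. Data processing: `h(B') ≤ h(B)` if `B'` is a degraded version of `B`.

PROOF. Let `M, q, r` be given. Entropy depends only on the values of `pr` (write `ent p f = -∑ ω, p ω log (pr p f (f ω))
= ∑ over the finite set of values of negMulLog (pr p f a)`; lemma: if `pr p f a = pr p' f' a` for all `a` then `ent p f =
ent p' f'`). For fixed `x` the laws of `(x + f', z')` and of `r (x + f, z) m` agree, so averaging over `x`: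
`ent (prod μ B'.p) (x + f', z') = ent (prod μ (prod B.p q)) (r (x + f, z) m)` and, the two copies being independent given `x`,
`ent (prod μ (prod B'.p B'.p)) (…) = ent (prod μ (prod (prod B.p q) (prod B.p q))) (r (x + f₁, z₁) m₁, r (x + f₂, z₂) m₂)`.
With `O_i = (x + f_i, z_i)`, `R_i = r O_i m_i`: `2 H(R) - H(R₁, R₂) ≤ 2 H(O, m) - H(O₁, m₁, O₂, m₂)` by `submod'` twice
(`H(O₁m₁, R₂) + H(R₁) ≤ H(O₁m₁) + H(R₁, R₂)` and `H(O₁m₁, O₂m₂) + H(R₂) ≤ H(O₂m₂) + H(O₁m₁, R₂)`), and
`H(O, m) = H(O) + H(q)`, `H(O₁, m₁, O₂, m₂) = H(O₁, O₂) + 2 H(q)` (`ent_prod`, reordering). -/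
theorem Deg.h_le (hμ : IsProb μ) {B B' : CV G} (h : Deg B B') : B'.h μ ≤ B.h μ := by
  obtain ⟨M, iM, q, hq, r, hr⟩ := h
  have key := pbA5_dp (m := μ) (p := B.p) (q := q) hμ B.hp hq
    (fun x => (x.1 + B.f x.2, B.z x.2)) r
  have e1 : ent (prod μ B'.p) (fun x => (x.1 + B'.f x.2, B'.z x.2)) =
      ent (prod μ (prod B.p q)) (fun x => r (x.1 + B.f x.2.1, B.z x.2.1) x.2.2) := by
    refine pbA5_ent_eq _ _ _ _ fun a => pbA5_pr_fib_congr _ _ _ _ _ a fun x => ?_
    exact hr x a
  have e2 : ent (prod μ (prod B'.p B'.p))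
      (fun x => ((x.1 + B'.f x.2.1, B'.z x.2.1), (x.1 + B'.f x.2.2, B'.z x.2.2))) =
      ent (prod μ (prod (prod B.p q) (prod B.p q)))
        (fun x => (r (x.1 + B.f x.2.1.1, B.z x.2.1.1) x.2.1.2,
          r (x.1 + B.f x.2.2.1, B.z x.2.2.1) x.2.2.2)) := by
    refine pbA5_ent_eq _ _ _ _ fun a => pbA5_pr_fib_congr _ _ _ _ _ a fun x => ?_
    obtain ⟨a1, a2⟩ := a
    have h1 := pr_prod B'.p B'.p (fun w => (x + B'.f w, B'.z w)) (fun w => (x + B'.f w, B'.z w))
      a1 a2
    have h2 := pr_prod (prod B.p q) (prod B.p q) (fun w => r (x + B.f w.1, B.z w.1) w.2)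
      (fun w => r (x + B.f w.1, B.z w.1) w.2) a1 a2
    rw [hr x a1, hr x a2] at h1
    exact h1.trans h2.symm
  unfold CV.h
  rw [e1, e2]
  exact key

end PB
end

section

/-!
PB, job B2: the inequality for a pair of laws. See table papers, id 374, step (4).
-/

set_option autoImplicit false

namespace PB

open Finset Pool.Agent.Lib.MP_dd2a7c_co

variable {G : Type} [AddCommGroup G] [Fintype G] {μ : G → ℝ}

private lemma ent_pair12 {α X Ω Ω' : Type} [Fintype X] [Fintype Ω] [Fintype Ω'] (m : X → ℝ) (p : Ω → ℝ)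
    {q : Ω' → ℝ} (hq : IsProb q) (F : X × Ω → α) :
    ent (prod m (prod p q)) (fun ω => F (ω.1, ω.2.1)) = ent (prod m p) F := by
  have h := law_prod m (prod p q) (fun x => x) (fun x => x.1)
  rw [law_prod_fst p hq (fun x => x)] at h
  have e : prod (law m (fun x => x)) (law p (fun x => x)) = prod m p := by
    congr 1
    · exact law_id m
    · exact law_id p
  rw [← e, ← h, ent_law]
  rfl

private lemma ent_pair13 {α X Ω Ω' : Type} [Fintype X] [Fintype Ω] [Fintype Ω'] (m : X → ℝ)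
    {p : Ω → ℝ} (hp : IsProb p) (q : Ω' → ℝ) (F : X × Ω' → α) :
    ent (prod m (prod p q)) (fun ω => F (ω.1, ω.2.2)) = ent (prod m q) F := by
  have h := law_prod m (prod p q) (fun x => x) (fun x => x.2)
  rw [law_prod_snd hp q (fun x => x)] at h
  have e : prod (law m (fun x => x)) (law q (fun x => x)) = prod m q := by
    congr 1
    · exact law_id m
    · exact law_id q
  rw [← e, ← h, ent_law]
  rfl

/-- JOB B2. For independent `X, A₁, A₂`, `T = A₁ + A₂`, `κ = H(T + T') - H(T)`: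
`I(X + A₁ : X + A₂) ≥ θ (log |G| - H(T)) - 6 KC κ`.

PROOF. Take `H` from `pfr_sub` for `t = a.1 + b.2` on `(Ω × Ω', prod p q)`, `π` the quotient map, `k = KC κ ≥ 0` (`κ ≥ 0`:
`ent_le_Hs_left`). (i) Data processing: the left side is at least the same expression for `π` applied to all outputs
(`submod'` twice; `H(U, V) + H(πU) ≤ H(U) + H(πU, V)` etc.). (ii) `ent (πx + πa, πx + πb) ≤ ent (πx, πa, πb) =
ent πx + ent πa + ent πb` (`ent_mono`, `ent_prod`) and `ent (πx + πa) ≥ ent πx`, `ent (πx + πb) ≥ ent πx` (`ent_le_Hs_left`). So the left side is at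
least `ent πx - ent πa - ent πb`. (iii) `ent πa, ent πb ≤ ent π(a + b) ≤ 2 k` (`ent_le_Hs_left`, `ent_le_Hs_right`). (iv) `ent πx ≥ θ log [G : H]` and
`log [G : H] = log |G| - log |H| ≥ log |G| - H(T) - 2 k`. Total: `≥ θ (log|G| - H(T)) - 2 θ k - 4 k`, `θ ≤ 1`. -/
theorem pair_ineq (h2 : ∀ x : G, x + x = 0) (hμ : IsProb μ) {θ : ℝ} (hθ0 : 0 ≤ θ) (hθ1 : θ ≤ 1)
    (hsub : Sub θ μ) {Ω Ω' : Type} [Fintype Ω] [Fintype Ω'] {p : Ω → ℝ} {q : Ω' → ℝ} (hp : IsProb p)
    (hq : IsProb q) (a : Ω → G) (b : Ω' → G) :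
    θ * (Real.log (Fintype.card G) - Hs p q a b) - 6 * KC *
      (Hs (prod p q) (prod p q) (fun x => a x.1 + b x.2) (fun x => a x.1 + b x.2) - Hs p q a b) ≤
    Hs μ p id a + Hs μ q id b -
      ent (prod μ (prod p q)) (fun x => (x.1 + a x.2.1, x.1 + b x.2.2)) := by
  obtain ⟨H, hH1, hH2⟩ := pfr_sub h2 (isProb_prod hp hq) (fun x : Ω × Ω' => a x.1 + b x.2)
  have hT : ent (prod p q) (fun x : Ω × Ω' => a x.1 + b x.2) = Hs p q a b := rfl
  have hκ0 := ent_le_Hs_left (isProb_prod hp hq) (isProb_prod hp hq) (fun x : Ω × Ω' => a x.1 + b x.2)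
    (fun x : Ω × Ω' => a x.1 + b x.2)
  rw [hT] at hH1 hH2 hκ0
  have hKC : 0 ≤ KC := by unfold KC; positivity
  have hk : 0 ≤ KC * (Hs (prod p q) (prod p q) (fun x => a x.1 + b x.2) (fun x => a x.1 + b x.2) -
      Hs p q a b) := mul_nonneg hKC (by linarith)
  have hθk : θ * (KC * (Hs (prod p q) (prod p q) (fun x => a x.1 + b x.2)
      (fun x => a x.1 + b x.2) - Hs p q a b)) ≤ KC * (Hs (prod p q) (prod p q)
      (fun x => a x.1 + b x.2) (fun x => a x.1 + b x.2) - Hs p q a b) :=
    mul_le_of_le_one_left hk hθ1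
  have hP := isProb_prod hμ (isProb_prod hp hq)
  let π : G → G ⧸ H := QuotientAddGroup.mk
  -- data processing
  have s1 := submod' hP (fun x => x.1 + a x.2.1) (fun x => (π (x.1 + a x.2.1), x.1 + b x.2.2))
    (fun x => π (x.1 + a x.2.1)) (fun x => (x.1 + a x.2.1, x.1 + b x.2.2))
    (fun ω ω' h => congrArg π h) (fun ω ω' h => (Prod.ext_iff.1 h).1)
    (fun ω ω' _ _ h h' => Prod.ext h (Prod.ext_iff.1 h').2)
  have s2 := submod' hP (fun x => x.1 + b x.2.2) (fun x => (π (x.1 + a x.2.1), π (x.1 + b x.2.2)))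
    (fun x => π (x.1 + b x.2.2)) (fun x => (π (x.1 + a x.2.1), x.1 + b x.2.2))
    (fun ω ω' h => congrArg π h) (fun ω ω' h => (Prod.ext_iff.1 h).2)
    (fun ω ω' _ _ h h' => Prod.ext (Prod.ext_iff.1 h').1 h)
  have s3 : ent (prod μ (prod p q)) (fun x => x.1 + a x.2.1) = Hs μ p id a :=
    ent_pair12 μ p hq (fun x => x.1 + a x.2)
  have s4 : ent (prod μ (prod p q)) (fun x => x.1 + b x.2.2) = Hs μ q id b :=
    ent_pair13 μ hp q (fun x => x.1 + b x.2)
  have s5 : ent (prod μ (prod p q)) (fun x => π (x.1 + a x.2.1)) =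
      ent (prod μ p) (fun x => π (x.1 + a x.2)) :=
    ent_pair12 μ p hq (fun x => π (x.1 + a x.2))
  have s6 : ent (prod μ (prod p q)) (fun x => π (x.1 + b x.2.2)) =
      ent (prod μ q) (fun x => π (x.1 + b x.2)) :=
    ent_pair13 μ hp q (fun x => π (x.1 + b x.2))
  have s7 : ent μ π ≤ ent (prod μ p) (fun x => π (x.1 + a x.2)) :=
    ent_le_Hs_left hμ hp π (fun ω => π (a ω))
  have s8 : ent μ π ≤ ent (prod μ q) (fun x => π (x.1 + b x.2)) :=
    ent_le_Hs_left hμ hq π (fun ω => π (b ω))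
  have s9 := ent_mono hP (fun x => (π x.1, (π (a x.2.1), π (b x.2.2))))
    (fun x => (π (x.1 + a x.2.1), π (x.1 + b x.2.2))) (by
      intro ω ω' _ _ h
      simp only [Prod.mk.injEq] at h
      obtain ⟨h1, h3, h4⟩ := h
      refine Prod.ext ?_ ?_
      · change π ω.1 + π (a ω.2.1) = π ω'.1 + π (a ω'.2.1)
        rw [h1, h3]
      · change π ω.1 + π (b ω.2.2) = π ω'.1 + π (b ω'.2.2)
        rw [h1, h4])
  have s10 : ent (prod μ (prod p q)) (fun x => (π x.1, (π (a x.2.1), π (b x.2.2)))) =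
      ent μ π + ent (prod p q) (fun x => (π (a x.1), π (b x.2))) :=
    ent_prod hμ (isProb_prod hp hq) π (fun x => (π (a x.1), π (b x.2)))
  have s11 : ent (prod p q) (fun x => (π (a x.1), π (b x.2))) = ent p (fun ω => π (a ω)) +
      ent q (fun ω => π (b ω)) := ent_prod hp hq (fun ω => π (a ω)) (fun ω => π (b ω))
  have s12 : ent p (fun ω => π (a ω)) ≤
      ent (prod p q) (fun ω => (QuotientAddGroup.mk (a ω.1 + b ω.2) : G ⧸ H)) :=
    ent_le_Hs_left hp hq (fun ω => π (a ω)) (fun ω => π (b ω))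
  have s13 : ent q (fun ω => π (b ω)) ≤
      ent (prod p q) (fun ω => (QuotientAddGroup.mk (a ω.1 + b ω.2) : G ⧸ H)) :=
    ent_le_Hs_right hp hq (fun ω => π (a ω)) (fun ω => π (b ω))
  have s14 : θ * Real.log (H.index : ℝ) ≤ ent μ π := hsub H
  have hidx : (H.index : ℝ) * (Nat.card H : ℝ) = (Fintype.card G : ℝ) := by
    have := H.index_mul_card
    rw [Nat.card_eq_fintype_card (α := G)] at this
    exact_mod_cast this
  have hG0 : (Fintype.card G : ℝ) ≠ 0 := by
    have : 0 < Fintype.card G := Fintype.card_pos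
    positivity
  have hi0 : (H.index : ℝ) ≠ 0 := by
    intro h0
    rw [h0, zero_mul] at hidx
    exact hG0 hidx.symm
  have hc0 : (Nat.card H : ℝ) ≠ 0 := by
    intro h0
    rw [h0, mul_zero] at hidx
    exact hG0 hidx.symm
  have hlog : Real.log (H.index : ℝ) = Real.log (Fintype.card G) - Real.log (Nat.card H : ℝ) := by
    rw [← hidx, Real.log_mul hi0 hc0]
    ring
  have s15 : θ * (Real.log (Fintype.card G) - Hs p q a b - 2 * KC *
      (Hs (prod p q) (prod p q) (fun x => a x.1 + b x.2) (fun x => a x.1 + b x.2) -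
      Hs p q a b)) ≤ θ * Real.log (H.index : ℝ) := by
    refine mul_le_mul_of_nonneg_left ?_ hθ0
    rw [hlog]
    linarith
  linarith

end PB
end

section

/-!
PB, job B6: the key lemma. See table papers, id 374, step (4).
-/

set_option autoImplicit false

namespace PB

open Finset Pool.Agent.Lib.MP_dd2a7c_co

variable {G : Type} [AddCommGroup G] [Fintype G] {μ : G → ℝ}

/-- JOB B6. The key lemma: `h(WB) ≥ θ D(SWB) - 18 KC I₁(B)`.

PROOF. `h_eq_avg` for `B.W`, `pair_ineq` for each pair of labels (`isProb_cw` for `prod … x ≠ 0`, `pr_pos`; terms with weight `0`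
vanish), `hc_S_eq_avg` for `B.W` and `avg_kappa_le`; the weights sum to one. -/
theorem key (h2 : ∀ x : G, x + x = 0) (hμ : IsProb μ) {θ : ℝ} (hθ0 : 0 ≤ θ) (hθ1 : θ ≤ 1)
    (hsub : Sub θ μ) (B : CV G) :
    θ * B.W.S.D - 18 * KC * (B.W.S.D - 2 * B.S.D + B.S.S.D) ≤ B.W.h μ := by
  classical
  set P : B.W.Ω × B.W.Ω → ℝ := prod B.W.p B.W.p with hP
  have hPp : IsProb P := isProb_prod B.W.hp B.W.hp
  have hKC : (0 : ℝ) ≤ KC := by unfold KC; positivity
  -- notation for the summands
  set Hx : B.W.Ω × B.W.Ω → ℝ := fun x =>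
    Hs (cw B.W.p B.W.z (B.W.z x.1)) (cw B.W.p B.W.z (B.W.z x.2)) B.W.f B.W.f with hHx
  set Kx : B.W.Ω × B.W.Ω → ℝ := fun x =>
    Hs (prod (cw B.W.p B.W.z (B.W.z x.1)) (cw B.W.p B.W.z (B.W.z x.2)))
          (prod (cw B.W.p B.W.z (B.W.z x.1)) (cw B.W.p B.W.z (B.W.z x.2)))
          (fun y => B.W.f y.1 + B.W.f y.2) (fun y => B.W.f y.1 + B.W.f y.2) -
        Hs (cw B.W.p B.W.z (B.W.z x.1)) (cw B.W.p B.W.z (B.W.z x.2)) B.W.f B.W.f with hKx
  have e1 := h_eq_avg hμ B.W
  have e2 : B.W.S.hc = ∑ x, P x * Hx x := hc_S_eq_avg B.W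
  have e3 : ∑ x, P x * Kx x ≤ 3 * (B.W.S.D - 2 * B.S.D + B.S.S.D) := avg_kappa_le h2 B
  have e4 : ∑ x, P x * (θ * (Real.log (Fintype.card G) - Hx x) - 6 * KC * Kx x) ≤ B.W.h μ := by
    rw [e1]
    refine Finset.sum_le_sum fun x _ => ?_
    by_cases hx : P x = 0
    · rw [hP] at hx
      rw [hP, hx]
      simp
    · have hx1 : B.W.p x.1 ≠ 0 := fun h => hx (by simp [hP, prod, h])
      have hx2 : B.W.p x.2 ≠ 0 := fun h => hx (by simp [hP, prod, h])
      refine mul_le_mul_of_nonneg_left ?_ (hPp.nonneg x)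
      exact pair_ineq h2 hμ hθ0 hθ1 hsub
        (isProb_cw B.W.hp (pr_pos B.W.hp B.W.z hx1).ne')
        (isProb_cw B.W.hp (pr_pos B.W.hp B.W.z hx2).ne') B.W.f B.W.f
  have e5 : ∑ x, P x * (θ * (Real.log (Fintype.card G) - Hx x) - 6 * KC * Kx x) =
      θ * (Real.log (Fintype.card G) * ∑ x, P x - ∑ x, P x * Hx x) - 6 * KC * ∑ x, P x * Kx x := by
    rw [Finset.mul_sum, ← Finset.sum_sub_distrib, Finset.mul_sum, Finset.mul_sum, ← Finset.sum_sub_distrib]
    exact Finset.sum_congr rfl fun x _ => by ring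
  have e6 : B.W.S.D = Real.log (Fintype.card G) - B.W.S.hc := rfl
  rw [e5, hPp.sum_one, mul_one, ← e2, ← e6] at e4
  nlinarith [mul_le_mul_of_nonneg_left e3 (mul_nonneg (by norm_num : (0 : ℝ) ≤ 6) hKC)]

end PB
end

section

/-!
PB, job T1: Theorem A. See table papers, id 374.
-/

set_option autoImplicit false

namespace PB

open Finset Pool.Agent.Lib.MP_dd2a7c_co

/-- JOB T1. Theorem A: entropy contraction governed by subgroups.

PROOF. `abstract_main` with `K = 18 KC` (`θ ≤ 1 ≤ K`), `𝔅 = CV G`, `N = log |G|`, `R = Deg`, the `Sys` structure from `D_W`, …, `key`; apply to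
`B = ofLaw ν hν`; `del_ofLaw`, `D_ofLaw`. -/
theorem sdpi {θ : ℝ} (hθ0 : 0 < θ) (hθ1 : θ ≤ 1) :
    ∃ ε : ℝ, 0 < ε ∧ ∀ (G : Type) [AddCommGroup G] [Fintype G], (∀ x : G, x + x = 0) →
      ∀ μ : G → ℝ, IsProb μ → Sub θ μ → ∀ ν : G → ℝ, IsProb ν →
        Real.log (Fintype.card G) - Hd (conv μ ν) ≤ (1 - ε) * (Real.log (Fintype.card G) - Hd ν) := by
  have hKC : (0 : ℝ) < 18 * KC := by unfold KC; positivity
  have hKC1 : θ ≤ 18 * KC := hθ1.trans (by unfold KC; norm_num)
  obtain ⟨ε, hε, hmain⟩ := abstract_main hθ0 hKC hKC1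
  refine ⟨ε, hε, ?_⟩
  intro G _ _ h2 μ hμ hsub ν hν
  have hsys : Sys θ (18 * KC) (Real.log (Fintype.card G)) (CV.S : CV G → CV G) CV.W CV.D
      (CV.del μ) (CV.h μ) Deg := by
    refine
      { D_W := D_W
        D_nonneg := D_nonneg
        D_le := D_le_log
        D_S_le := D_S_le
        D_S_le_S_W := D_S_le_S_W
        δ_W := del_W h2 hμ
        δ_nonneg := del_nonneg hμ
        h_nonneg := h_nonneg hμ
        refl := Deg.refl
        trans := fun B B' B'' h h' => Deg.trans h h'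
        R_S := Deg.S
        R_W := fun B B' h => Deg.W h2 h
        h_le := fun B B' h => Deg.h_le hμ h
        key := fun B => key h2 hμ hθ0.le hθ1 hsub B }
  have h := hmain (CV G) (Real.log (Fintype.card G)) CV.S CV.W CV.D (CV.del μ) (CV.h μ) Deg hsys
    (ofLaw ν hν)
  rw [D_ofLaw, del_ofLaw] at h
  linarith

end PB
end

section

/-!
PB, job U3: many summands. See table papers, id 374, proof of Theorem B.
-/

set_option autoImplicit false

namespace PB

open Finset Pool.Agent.Lib.MP_dd2a7c_co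
open scoped Classical

/-- The `m`-fold sum (`m + 1` summands) of independent copies of the uniform law on `B`. -/
noncomputable def cpow {G : Type} [AddCommGroup G] [Fintype G] (B : Finset G) : ℕ → G → ℝ
  | 0 => uA B
  | m + 1 => conv (uA B) (cpow B m)

variable {G : Type} [AddCommGroup G] [Fintype G]

omit [AddCommGroup G] [Fintype G] in
private lemma mem_of_uA_ne {B : Finset G} {g : G} (h : uA B g ≠ 0) : g ∈ B := by
  unfold uA at h
  by_contra hg
  exact h (if_neg hg)

/-- JOB U3. (a) The support of `cpow B m` consists of sums of `m + 1` elements of `B`. PROOF. Induction (`conv_apply`: some term is nonzero). -/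
theorem supp_cpow (B : Finset G) (m : ℕ) {g : G} (hg : cpow B m g ≠ 0) :
    ∃ a : Fin (m + 1) → G, (∀ i, a i ∈ B) ∧ g = ∑ i, a i := by
  induction m generalizing g with
  | zero =>
    refine ⟨fun _ => g, fun _ => mem_of_uA_ne hg, ?_⟩
    simp
  | succ m ih =>
    have h1 : ∑ a, uA B a * cpow B m (g - a) ≠ 0 := by
      rw [← conv_apply]
      exact hg
    obtain ⟨b, -, hb⟩ := exists_ne_zero_of_sum_ne_zero h1
    obtain ⟨a, ha, hsum⟩ := ih (right_ne_zero_of_mul hb)
    refine ⟨Fin.cons b a, ?_, ?_⟩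
    · intro i
      refine Fin.cases ?_ (fun j => ?_) i
      · simpa using mem_of_uA_ne (left_ne_zero_of_mul hb)
      · simpa using ha j
    · rw [Fin.sum_univ_succ]
      simp only [Fin.cons_zero, Fin.cons_succ]
      rw [← hsum]
      abel

/-- (b) PROOF. Induction, `isProb_uA`, `isProb_conv`. -/
theorem isProb_cpow {B : Finset G} (hB : B.Nonempty) (m : ℕ) : IsProb (cpow B m) := by
  induction m with
  | zero => exact isProb_uA hB
  | succ m ih => exact isProb_conv (isProb_uA hB) ih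

/-- (c) If `log |G| - H(cpow B m) < log 2` then every element of `G` is a sum of `2 (m + 1)` elements of `B`.

PROOF. `Hd ρ ≤ log |supp ρ|` (`ent_le_log_card`), so `|supp| > |G| / 2`; pigeonhole: for `g ∈ G` the sets `supp` and `g - supp` meet; (a) twice
(`Fin.append` or `Fin.addCases`; any way of concatenating). -/
theorem all_of_lt {B : Finset G} (hB : B.Nonempty) (m : ℕ)
    (h : Real.log (Fintype.card G) - Hd (cpow B m) < Real.log 2) (g : G) :
    ∃ a : Fin (2 * (m + 1)) → G, (∀ i, a i ∈ B) ∧ g = ∑ i, a i := by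
  set S : Finset G := univ.filter fun x => cpow B m x ≠ 0 with hS
  have hp := isProb_cpow hB m
  have hHS : Hd (cpow B m) ≤ Real.log S.card := by
    refine ent_le_log_card hp id S ?_
    intro ω hω
    simp only [hS, mem_filter, mem_univ, true_and, id]
    exact hω
  have hGpos : (0 : ℝ) < Fintype.card G := by
    have : Nonempty G := ⟨0⟩
    exact_mod_cast Fintype.card_pos
  have hSne : S.Nonempty := by
    by_contra hne
    rw [not_nonempty_iff_eq_empty] at hne
    have h0 : ∀ x, cpow B m x = 0 := by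
      intro x
      by_contra hx
      have : x ∈ S := by simp [hS, hx]
      rw [hne] at this
      simp at this
    have h1 := hp.sum_one
    simp [h0] at h1
  have hSpos : (0 : ℝ) < S.card := by exact_mod_cast hSne.card_pos
  have hlt : Real.log (Fintype.card G) < Real.log (2 * S.card) := by
    rw [Real.log_mul (by norm_num) hSpos.ne']
    linarith
  have hcard : (Fintype.card G : ℝ) < 2 * S.card :=
    (Real.log_lt_log_iff hGpos (by positivity)).1 hlt
  have hcard' : Fintype.card G < 2 * S.card := by exact_mod_cast hcard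
  -- pigeonhole
  set T : Finset G := S.image fun x => g - x with hT
  have hTcard : T.card = S.card := card_image_of_injective _ (sub_right_injective)
  have hmeet : ¬ Disjoint S T := by
    intro hd
    have h1 : (S ∪ T).card ≤ Fintype.card G := card_le_univ _
    rw [card_union_of_disjoint hd, hTcard] at h1
    omega
  rw [not_disjoint_iff] at hmeet
  obtain ⟨x, hxS, hxT⟩ := hmeet
  rw [hT, mem_image] at hxT
  obtain ⟨y, hyS, hyx⟩ := hxT
  have hx : cpow B m x ≠ 0 := by simpa [hS] using hxS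
  have hy : cpow B m y ≠ 0 := by simpa [hS] using hyS
  obtain ⟨a, ha, hasum⟩ := supp_cpow B m hx
  obtain ⟨b, hb, hbsum⟩ := supp_cpow B m hy
  have hg : g = x + y := by rw [← hyx]; abel
  have h2 : 2 * (m + 1) = (m + 1) + (m + 1) := by ring
  rw [h2]
  refine ⟨Fin.append a b, ?_, ?_⟩
  · intro i
    refine Fin.addCases (fun j => ?_) (fun j => ?_) i
    · rw [Fin.append_left]; exact ha j
    · rw [Fin.append_right]; exact hb j
  · rw [Fin.sum_univ_add]
    simp only [Fin.append_left, Fin.append_right]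
    rw [← hasum, ← hbsum]
    exact hg

/-- (d) The iterated contraction: PROOF. Induction on `m` from `sdpi` (`ε ≤ 1` may be assumed: the factor `max 0 (1 - ε)`; here the hypothesis is
given as `hc`), `Hd (uA B) = log |B|` (`Hd_uA`). -/
theorem D_cpow {B : Finset G} (hB : B.Nonempty) {ε : ℝ} (hε0 : 0 < ε) (hε1 : ε ≤ 1)
    (hc : ∀ ν : G → ℝ, IsProb ν → Real.log (Fintype.card G) - Hd (conv (uA B) ν) ≤
      (1 - ε) * (Real.log (Fintype.card G) - Hd ν)) (m : ℕ) :
    Real.log (Fintype.card G) - Hd (cpow B m) ≤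
      (1 - ε) ^ m * (Real.log (Fintype.card G) - Real.log B.card) := by
  induction m with
  | zero =>
    rw [pow_zero, one_mul]
    show Real.log (Fintype.card G) - Hd (uA B) ≤ _
    rw [Hd_uA hB]
  | succ m ih =>
    have h1 := hc (cpow B m) (isProb_cpow hB m)
    have h2 : (1 - ε) * (Real.log (Fintype.card G) - Hd (cpow B m)) ≤
        (1 - ε) * ((1 - ε) ^ m * (Real.log (Fintype.card G) - Real.log B.card)) :=
      mul_le_mul_of_nonneg_left ih (by linarith)
    have h3 : (1 - ε) * ((1 - ε) ^ m * (Real.log (Fintype.card G) - Real.log B.card)) =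
        (1 - ε) ^ (m + 1) * (Real.log (Fintype.card G) - Real.log B.card) := by ring
    show Real.log (Fintype.card G) - Hd (conv (uA B) (cpow B m)) ≤ _
    linarith

end PB
end
end

section

section

/-!
PB, job U1: the choice of the coset. See table papers, id 374, proof of Theorem B.
-/

set_option autoImplicit false

namespace PB

open Finset Pool.Agent.Lib.MP_dd2a7c_co
open scoped Classical

variable {G : Type} [AddCommGroup G] [Fintype G]

/-- The number of elements of `A` in `x + H`. -/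
noncomputable def cnt (A : Finset G) (H : AddSubgroup G) (x : G) : ℕ := (A.filter fun a => a - x ∈ H).card

private lemma u1_cnt_le (A : Finset G) (H : AddSubgroup G) (x : G) : cnt A H x ≤ Nat.card H := by
  unfold cnt
  rw [Nat.card_eq_fintype_card, ← Fintype.card_coe]
  refine Fintype.card_le_of_injective
    (fun a : {a // a ∈ A.filter fun a => a - x ∈ H} =>
      (⟨a.1 - x, (Finset.mem_filter.mp a.2).2⟩ : H)) ?_
  intro a b h
  have h' : a.1 - x = b.1 - x := congrArg Subtype.val h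
  exact Subtype.ext (sub_left_injective h')

/-- JOB U1. The choice of the coset, `0 < c`.

PROOF. Maximise `F (H, x) = cnt A H x / |H| * (|H| / |G|) ^ c` (`Real.rpow`) over the finite set of all pairs `(H, x)`
(`Finite (AddSubgroup G)`); `F (⊤, 0) = |A| / |G|`. Since `cnt ≤ |H|` (injection `a ↦ a - x`), `|A| / |G| ≤ F ≤ (|H| / |G|) ^ c = [G : H]^{-c}`:
(1). As `(|H|/|G|)^c ≤ 1`, `cnt A H x / |H| ≥ |A| / |G|`: (2). (3) is `F (H', x') ≤ F (H, x)` divided by `|G|^{-c}`. -/
theorem exists_coset (A : Finset G) (hA : A.Nonempty) {c : ℝ} (hc : 0 < c) :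
    ∃ (H : AddSubgroup G) (x : G),
      (H.index : ℝ) ^ c ≤ Fintype.card G / A.card ∧
      (A.card : ℝ) / Fintype.card G ≤ cnt A H x / Nat.card H ∧
      ∀ (H' : AddSubgroup G) (x' : G), (cnt A H' x' : ℝ) / Nat.card H' * (Nat.card H' : ℝ) ^ c ≤
        cnt A H x / Nat.card H * (Nat.card H : ℝ) ^ c := by
  obtain ⟨⟨H, x⟩, hmax⟩ := Finite.exists_max
    (fun q : AddSubgroup G × G => (cnt A q.1 q.2 : ℝ) / Nat.card q.1 * (Nat.card q.1 : ℝ) ^ c)
  have hmax' : ∀ (H' : AddSubgroup G) (x' : G),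
      (cnt A H' x' : ℝ) / Nat.card H' * (Nat.card H' : ℝ) ^ c ≤
        cnt A H x / Nat.card H * (Nat.card H : ℝ) ^ c := fun H' x' => hmax (H', x')
  have hHpos : (0 : ℝ) < Nat.card H := by exact_mod_cast Nat.card_pos
  have hGpos : (0 : ℝ) < Fintype.card G := by exact_mod_cast Fintype.card_pos
  have hApos : (0 : ℝ) < A.card := by exact_mod_cast hA.card_pos
  have hind1 : (1 : ℝ) ≤ H.index := by
    have : 1 ≤ H.index := Nat.one_le_iff_ne_zero.mpr AddSubgroup.index_ne_zero_of_finite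
    exact_mod_cast this
  have hmul : (Fintype.card G : ℝ) = H.index * Nat.card H := by
    have := H.index_mul_card
    rw [Nat.card_eq_fintype_card (α := G)] at this
    exact_mod_cast this.symm
  have htop := hmax' ⊤ 0
  have hcntT : cnt A (⊤ : AddSubgroup G) 0 = A.card := by
    unfold cnt
    congr 1
    exact Finset.filter_true_of_mem (fun a _ => AddSubgroup.mem_top _)
  have hcardT : (Nat.card (⊤ : AddSubgroup G) : ℝ) = Fintype.card G := by
    rw [AddSubgroup.card_top, Nat.card_eq_fintype_card]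
  rw [hcntT, hcardT] at htop
  have hpow : (Fintype.card G : ℝ) ^ c = (H.index : ℝ) ^ c * (Nat.card H : ℝ) ^ c := by
    rw [hmul, Real.mul_rpow (by linarith) hHpos.le]
  have hHc : 0 < (Nat.card H : ℝ) ^ c := Real.rpow_pos_of_pos hHpos c
  have hkey : (A.card : ℝ) / Fintype.card G * (H.index : ℝ) ^ c ≤ cnt A H x / Nat.card H := by
    rw [hpow, ← mul_assoc] at htop
    exact le_of_mul_le_mul_right htop hHc
  have hle1 : (cnt A H x : ℝ) / Nat.card H ≤ 1 := by
    rw [div_le_one hHpos]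
    exact_mod_cast u1_cnt_le A H x
  have hAG : 0 < (A.card : ℝ) / Fintype.card G := div_pos hApos hGpos
  refine ⟨H, x, ?_, ?_, hmax'⟩
  · have h1 : (A.card : ℝ) / Fintype.card G * (H.index : ℝ) ^ c ≤ 1 := hkey.trans hle1
    rw [le_div_iff₀ hApos]
    rw [div_mul_eq_mul_div, div_le_one hGpos] at h1
    linarith
  · have h1 : (1 : ℝ) ≤ (H.index : ℝ) ^ c := Real.one_le_rpow hind1 hc.le
    nlinarith

end PB
end

section

/-!
PB, job U2: the uniform law on `A` in the chosen coset satisfies `Sub`. See table papers, id 374, proof of Theorem B.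
-/

set_option autoImplicit false

namespace PB

open Finset Pool.Agent.Lib.MP_dd2a7c_co
open scoped Classical

variable {G : Type} [AddCommGroup G] [Fintype G]

/-- The set `A ∩ (x + H) - x` as a subset of the group `H`. -/
noncomputable def slice (A : Finset G) (H : AddSubgroup G) (x : G) : Finset H :=
  univ.filter fun y : H => (y : G) + x ∈ A

/-- JOB U2. (a) PROOF. The bijection `y ↦ y + x`. -/
theorem card_slice (A : Finset G) (H : AddSubgroup G) (x : G) : (slice A H x).card = cnt A H x := by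
  unfold slice cnt
  refine card_bij (fun y _ => (y : G) + x) ?_ ?_ ?_
  · intro y hy
    rw [mem_filter] at hy ⊢
    refine ⟨hy.2, ?_⟩
    rw [add_sub_cancel_right]
    exact y.2
  · intro y _ y' _ h
    exact Subtype.ext (add_right_cancel h)
  · intro a ha
    rw [mem_filter] at ha
    refine ⟨⟨a - x, ha.2⟩, ?_, ?_⟩
    · rw [mem_filter]
      refine ⟨mem_univ _, ?_⟩
      rw [sub_add_cancel]
      exact ha.1
    · exact sub_add_cancel a x

private lemma pr_uA_mk (A : Finset G) (H : AddSubgroup G) (x : G) (H2 : AddSubgroup H) (y : H) :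
    pr (uA (slice A H x)) (fun z : H => (QuotientAddGroup.mk z : H ⧸ H2)) (QuotientAddGroup.mk y) ≤
      (cnt A (H2.map H.subtype) (x + y) : ℝ) / cnt A H x := by
  have e : pr (uA (slice A H x)) (fun z : H => (QuotientAddGroup.mk z : H ⧸ H2)) (QuotientAddGroup.mk y) =
      (((slice A H x).filter fun z : H => (QuotientAddGroup.mk z : H ⧸ H2) = QuotientAddGroup.mk y).card : ℝ) /
        (slice A H x).card := by
    unfold pr uA
    beta_reduce
    rw [card_filter, Nat.cast_sum, sum_div]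
    refine (sum_subset (subset_univ (slice A H x)) fun z _ hz => ?_).symm.trans ?_
    · rw [if_neg hz, ite_self]
    refine sum_congr rfl fun z hz => ?_
    rw [if_pos hz]
    split_ifs
    · simp
    · simp
  rw [e, card_slice]
  refine div_le_div_of_nonneg_right ?_ (Nat.cast_nonneg _)
  rw [Nat.cast_le]
  unfold cnt
  refine card_le_card_of_injOn (fun z : H => (z : G) + x) ?_ ?_
  · intro z hz
    rw [mem_coe, mem_filter] at hz
    rw [mem_coe, mem_filter]
    have h1 := hz.1
    unfold slice at h1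
    rw [mem_filter] at h1
    refine ⟨h1.2, ?_⟩
    have h2 : y - z ∈ H2 := by
      have h3 := QuotientAddGroup.eq.1 hz.2
      have : y - z = -z + y := by abel
      rw [this]
      exact h3
    have h4 : z - y ∈ H2 := by
      have := H2.neg_mem h2
      rwa [neg_sub] at this
    refine AddSubgroup.mem_map.2 ⟨z - y, h4, ?_⟩
    change ((z - y : H) : G) = z + x - (x + y)
    rw [AddSubgroup.coe_sub]
    abel
  · intro z _ z' _ h
    exact Subtype.ext (add_right_cancel h)

/-- (b) PROOF. Let `H'' ≤ H` (a subgroup of the type `H`) and `H' = H''.map H.subtype` (`|H'| = |H''|`). For a coset `y + H''` the number of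
elements of `slice A H x` in it is `cnt A H' (x + y)` (`≤`), so by `hmax` the probability `pr (uA (slice A H x)) mk (mk y)` is at most
`|H''| ^ (1 - c) * |H| ^ c / |H| = (|H| / |H''|) ^ (c - 1) = index ^ (c - 1)`; `neg_log_le_ent` (file Finite.lean of MP_dd2a7c_co: if all `pr ≤ t` then
`- log t ≤ ent`) gives `ent ≥ (1 - c) log index`. -/
theorem sub_slice (A : Finset G) (H : AddSubgroup G) (x : G) {c : ℝ} (hne : 0 < cnt A H x)
    (hmax : ∀ (H' : AddSubgroup G) (x' : G), (cnt A H' x' : ℝ) / Nat.card H' * (Nat.card H' : ℝ) ^ c ≤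
        cnt A H x / Nat.card H * (Nat.card H : ℝ) ^ c) :
    Sub (1 - c) (uA (slice A H x)) := by
  intro H2
  have hS : (slice A H x).Nonempty := by
    rw [← card_pos, card_slice]
    exact hne
  have hcnt : (0 : ℝ) < cnt A H x := Nat.cast_pos.2 hne
  have hH : (0 : ℝ) < Nat.card H := Nat.cast_pos.2 Nat.card_pos
  have hH2 : (0 : ℝ) < Nat.card H2 := Nat.cast_pos.2 Nat.card_pos
  have hcard : Nat.card (H2.map H.subtype) = Nat.card H2 :=
    (Nat.card_congr (H2.equivMapOfInjective H.subtype H.subtype_injective).toEquiv).symm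
  have hidx : (Nat.card H2 : ℝ) * H2.index = Nat.card H := by
    exact_mod_cast H2.card_mul_index
  have hindex : (0 : ℝ) < H2.index := by
    by_contra hcon
    have h1 : (Nat.card H2 : ℝ) * H2.index ≤ 0 := mul_nonpos_of_nonneg_of_nonpos hH2.le (not_lt.1 hcon)
    rw [hidx] at h1
    exact absurd hH (not_lt.2 h1)
  have key : ∀ q : H ⧸ H2, pr (uA (slice A H x)) (fun z : H => (QuotientAddGroup.mk z : H ⧸ H2)) q ≤
      (H2.index : ℝ) ^ (c - 1) := by
    intro q
    obtain ⟨y, rfl⟩ := QuotientAddGroup.mk_surjective q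
    refine (pr_uA_mk A H x H2 y).trans ?_
    rw [div_le_iff₀ hcnt]
    have h1 := hmax (H2.map H.subtype) (x + y)
    rw [hcard, ← hidx] at h1
    have h2 : (0 : ℝ) < (Nat.card H2 : ℝ) ^ c := Real.rpow_pos_of_pos hH2 c
    rw [Real.mul_rpow hH2.le hindex.le] at h1
    have h3 : (H2.index : ℝ) ^ (c - 1) = (H2.index : ℝ) ^ c / H2.index := by
      rw [Real.rpow_sub hindex, Real.rpow_one]
    rw [h3]
    have h4 : (cnt A (H2.map H.subtype) (x + y) : ℝ) * ((Nat.card H2 : ℝ) ^ c / Nat.card H2) ≤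
        ((H2.index : ℝ) ^ c / H2.index * cnt A H x) * ((Nat.card H2 : ℝ) ^ c / Nat.card H2) := by
      calc (cnt A (H2.map H.subtype) (x + y) : ℝ) * ((Nat.card H2 : ℝ) ^ c / Nat.card H2)
          = (cnt A (H2.map H.subtype) (x + y) : ℝ) / Nat.card H2 * (Nat.card H2 : ℝ) ^ c := by ring
        _ ≤ _ := h1
        _ = _ := by
          field_simp
    exact le_of_mul_le_mul_right h4 (by positivity)
  have h5 := neg_log_le_ent (isProb_uA hS) (fun z : H => (QuotientAddGroup.mk z : H ⧸ H2)) key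
  rw [Real.log_rpow hindex] at h5
  linarith

end PB
end
end
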