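import Pool.Agent.Lib.MP_c6cae0_co.PB.U2

/-!
PB, job U4: Theorem B. See table papers, id 374.
-/

set_option autoImplicit false

namespace PB

open Finset Pool.Agent.Lib.MP_dd2a7c_co
open scoped Classical

/-- numerical part -/
private lemma U4_num {ε L : ℝ} (hε0 : 0 < ε) (hε1 : ε ≤ 1 / 2) (hL : 0 ≤ L) {m : ℕ}
    (hm : 2 / ε * Real.log (2 + L) ≤ m) : (1 - ε) ^ m * L < Real.log 2 := by
  have h1 : (1 - ε) ^ m ≤ Real.exp (-ε) ^ m := by
    refine pow_le_pow_left₀ (by linarith) ?_ m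
    have := Real.add_one_le_exp (-ε)
    linarith
  have h2 : Real.exp (-ε) ^ m ≤ ((2 + L) ^ 2)⁻¹ := by
    rw [← Real.exp_nat_mul]
    have h3 : (2 + L) = Real.exp (Real.log (2 + L)) := (Real.exp_log (by linarith)).symm
    rw [h3, ← Real.exp_nat_mul, ← Real.exp_neg]
    apply Real.exp_le_exp.2
    have h4 : 2 * Real.log (2 + L) ≤ ε * m := by
      have := mul_le_mul_of_nonneg_left hm hε0.le
      have h5 : ε * (2 / ε * Real.log (2 + L)) = 2 * Real.log (2 + L) := by
        field_simp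
      linarith
    push_cast
    linarith
  have h3 : (1 - ε) ^ m * L ≤ ((2 + L) ^ 2)⁻¹ * L :=
    mul_le_mul_of_nonneg_right (h1.trans h2) hL
  have h4 : ((2 + L) ^ 2)⁻¹ * L ≤ 1 / 2 := by
    rw [inv_mul_eq_div, div_le_iff₀ (by positivity)]
    nlinarith
  have h5 := Real.log_two_gt_d9
  linarith

/-- extension to more summands -/
private lemma U4_ext {G : Type} [AddCommGroup G] {A : Finset G} {a0 : G} (ha0 : a0 ∈ A) {n k : ℕ}
    (hnk : n ≤ k) {b : Fin n → G} {x : G} (hb : ∀ i, b i + x ∈ A) :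
    ∃ a : Fin k → G, (∀ i, a i ∈ A) ∧ n • x + (k - n) • a0 + ∑ i, b i = ∑ i, a i := by
  obtain ⟨r, rfl⟩ := Nat.exists_eq_add_of_le hnk
  refine ⟨Fin.append (fun i => b i + x) (fun _ => a0), ?_, ?_⟩
  · intro i
    refine Fin.addCases (fun i => ?_) (fun i => ?_) i
    · rw [Fin.append_left]
      exact hb i
    · rw [Fin.append_right]
      exact ha0
  · rw [Fin.sum_univ_add]
    simp only [Fin.append_left, Fin.append_right]
    rw [sum_add_distrib, sum_const, sum_const, card_univ, card_univ, Fintype.card_fin,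
      Fintype.card_fin, Nat.add_sub_cancel_left]
    abel

/-- JOB U4. (a) Theorem B for a finite group of exponent two, `c ∈ (0, 1)`.

PROOF. `θ = 1 - c`, `ε` from `sdpi` (replace it by `min ε (1/2)`; `D ≥ 0` so the contraction stays true). Given `A`, take `H, x` from `exists_coset`,
`B = slice A H x` (nonempty, `|B| / |H| ≥ |A| / |G|`), `sub_slice`, `D_cpow`, so that
`log |H| - Hd (cpow B m) ≤ (1 - ε)^m log (|G| / |A|) < log 2` as soon as `m ≥ C' log (2 + log (|G| / |A|))`
(`(1 - ε)^m ≤ exp (- ε m)`; `L exp (- ε m) < log 2` if `ε m ≥ 2 log (2 + L)`, as `(2 + L)^{-2} L < 1/4 < log 2`... ), `all_of_lt`: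
every `y ∈ H` is a sum of `2 (m + 1)` elements of `B`, i.e. `y + 2 (m + 1) x` is a sum of that many elements of `A`. For `k ≥ 2 (m + 1)` add
`k - 2 (m + 1)` copies of one element of `A`. With `m` the least integer `≥ C' log (2 + L)`, `2 (m + 1) ≤ C log (2 + L)` for
`C = 2 C' + 4 / log 2`. -/
theorem loglog_grp {c : ℝ} (hc0 : 0 < c) (hc1 : c < 1) :
    ∃ C : ℝ, ∀ (G : Type) [AddCommGroup G] [Fintype G], (∀ x : G, x + x = 0) →
      ∀ A : Finset G, A.Nonempty → ∀ k : ℕ,
        C * Real.log (2 + Real.log (Fintype.card G / A.card)) ≤ k →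
        ∃ (x : G) (H : AddSubgroup G), (H.index : ℝ) ^ c ≤ Fintype.card G / A.card ∧
          ∀ y ∈ H, ∃ a : Fin k → G, (∀ i, a i ∈ A) ∧ x + y = ∑ i, a i := by
  obtain ⟨ε0, hε0, hε⟩ := sdpi (θ := 1 - c) (by linarith) (by linarith)
  obtain ⟨ε, hεd⟩ : ∃ ε, ε = min ε0 (1 / 2) := ⟨_, rfl⟩
  have hεpos : 0 < ε := by rw [hεd]; exact lt_min hε0 (by norm_num)
  have hε2 : ε ≤ 1 / 2 := by rw [hεd]; exact min_le_right _ _
  have hεle : ε ≤ ε0 := by rw [hεd]; exact min_le_left _ _
  refine ⟨4 / ε + 4 / Real.log 2, ?_⟩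
  intro G _ _ h2 A hA k hk
  obtain ⟨H, x, hH1, hH2, hH3⟩ := exists_coset A hA hc0
  have hG0 : (0 : ℝ) < Fintype.card G := by exact_mod_cast Fintype.card_pos
  have hA0 : (0 : ℝ) < A.card := by exact_mod_cast hA.card_pos
  have hHc : (0 : ℝ) < Nat.card H := by exact_mod_cast Nat.card_pos
  have hcnt : 0 < cnt A H x := by
    by_contra h0
    have h1 : cnt A H x = 0 := by omega
    rw [h1] at hH2
    have : 0 < (A.card : ℝ) / Fintype.card G := by positivity
    simp at hH2
    linarith [hH2]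
  obtain ⟨B, hB⟩ : ∃ B, B = slice A H x := ⟨_, rfl⟩
  have hBc : B.card = cnt A H x := by rw [hB]; exact card_slice A H x
  have hBne : B.Nonempty := by
    rw [← card_pos, hBc]
    exact hcnt
  have hsub : Sub (1 - c) (uA B) := by
    rw [hB]
    exact sub_slice A H x hcnt hH3
  have h2' : ∀ y : H, y + y = 0 := fun y => Subtype.ext (h2 y)
  have hcon : ∀ ν : H → ℝ, IsProb ν → Real.log (Fintype.card H) - Hd (conv (uA B) ν) ≤
      (1 - ε) * (Real.log (Fintype.card H) - Hd ν) := by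
    intro ν hν
    have h3 := hε H h2' (uA B) (isProb_uA hBne) hsub ν hν
    have h4 : Hd ν ≤ Real.log (Fintype.card H) := by
      have := ent_le_log_card hν id univ (fun _ _ => mem_univ _)
      rwa [card_univ] at this
    have h5 : 0 ≤ (ε0 - ε) * (Real.log (Fintype.card H) - Hd ν) :=
      mul_nonneg (by linarith) (by linarith)
    linarith
  obtain ⟨L, hL⟩ : ∃ L, L = Real.log (Fintype.card G / A.card) := ⟨_, rfl⟩
  have hAG : (A.card : ℝ) ≤ Fintype.card G := by exact_mod_cast card_le_univ A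
  have hL0 : 0 ≤ L := by
    rw [hL]
    apply Real.log_nonneg
    rw [le_div_iff₀ hA0]
    linarith
  rw [← hL] at hk
  have hlog0 : Real.log 2 ≤ Real.log (2 + L) := Real.log_le_log (by norm_num) (by linarith)
  have hlog2 : 0 < Real.log 2 := Real.log_pos (by norm_num)
  obtain ⟨m, hm⟩ : ∃ m : ℕ, m = ⌈2 / ε * Real.log (2 + L)⌉₊ := ⟨_, rfl⟩
  have hm1 : 2 / ε * Real.log (2 + L) ≤ m := by rw [hm]; exact Nat.le_ceil _
  have hm2 : (m : ℝ) < 2 / ε * Real.log (2 + L) + 1 := by
    rw [hm]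
    exact Nat.ceil_lt_add_one (mul_nonneg (by positivity) (hlog2.le.trans hlog0))
  have hD := D_cpow hBne hεpos (by linarith) hcon m
  have hDL : Real.log (Fintype.card H) - Real.log B.card ≤ L := by
    have hB0 : (0 : ℝ) < B.card := by exact_mod_cast hBne.card_pos
    have hHc' : (0 : ℝ) < Fintype.card H := by exact_mod_cast Fintype.card_pos
    rw [hL, ← Real.log_div hHc'.ne' hB0.ne']
    apply Real.log_le_log (by positivity)
    rw [← hBc, Nat.card_eq_fintype_card] at hH2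
    rw [div_le_div_iff₀ hB0 hA0]
    rw [div_le_div_iff₀ hG0 hHc'] at hH2
    linarith
  have hlt : Real.log (Fintype.card H) - Hd (cpow B m) < Real.log 2 := by
    refine lt_of_le_of_lt hD (lt_of_le_of_lt ?_ (U4_num hεpos hε2 hL0 hm1))
    exact mul_le_mul_of_nonneg_left hDL (pow_nonneg (by linarith) _)
  have hall := all_of_lt hBne m hlt
  obtain ⟨a0, ha0⟩ := hA
  have hkn : 2 * (m + 1) ≤ k := by
    have h3 : ((2 * (m + 1) : ℕ) : ℝ) ≤ k := by
      refine le_trans ?_ hk
      push_cast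
      have h4 : 4 ≤ 4 / Real.log 2 * Real.log (2 + L) := by
        rw [div_mul_eq_mul_div, le_div_iff₀ hlog2]
        linarith
      have h5 : 4 / ε * Real.log (2 + L) = 2 * (2 / ε * Real.log (2 + L)) := by ring
      rw [add_mul]
      linarith
    exact_mod_cast h3
  refine ⟨(2 * (m + 1)) • x + (k - 2 * (m + 1)) • a0, H, hH1, ?_⟩
  intro y hy
  obtain ⟨b, hb, hyb⟩ := hall ⟨y, hy⟩
  have hb' : ∀ i, ((b i : H) : G) + x ∈ A := by
    intro i
    have h3 := hb i
    rw [hB] at h3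
    unfold slice at h3
    exact (mem_filter.1 h3).2
  obtain ⟨a, ha, has⟩ := U4_ext ha0 hkn hb'
  refine ⟨a, ha, ?_⟩
  rw [← has]
  congr 1
  have h3 := congrArg (fun z : H => (z : G)) hyb
  simp only [AddSubgroup.val_finsetSum] at h3
  exact h3

/-- (b) Theorem B.

PROOF. (a) with `c = 1 / (1 + η)`, `G = Fin n → ZMod 2`, `W = AddSubgroup.toZModSubmodule 2 H`; `|G| / |A| ≤ 1 / α` (so the bound on `k` is
monotone; take `C ≥ 0`), `[G : H] = 2 ^ (n - finrank W)`, so `c (n - finrank W) log 2 ≤ log (1 / α)`. -/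
theorem loglog_main : ∀ η : ℝ, 0 < η → ∃ C : ℝ, ∀ (n : ℕ) (α : ℝ), 0 < α → α ≤ 1 →
    ∀ A : Finset (Fin n → ZMod 2), α * (2 : ℝ) ^ n ≤ A.card →
      ∀ k : ℕ, C * Real.log (2 + Real.log (1 / α)) ≤ k →
        ∃ (x : Fin n → ZMod 2) (W : Submodule (ZMod 2) (Fin n → ZMod 2)),
          (n : ℝ) - Module.finrank (ZMod 2) W ≤ (1 + η) * (Real.log (1 / α) / Real.log 2) ∧
          ∀ w ∈ W, ∃ a : Fin k → (Fin n → ZMod 2), (∀ i, a i ∈ A) ∧ x + w = ∑ i, a i := by
  intro η hη
  have hη1 : (0 : ℝ) < 1 + η := by linarith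
  obtain ⟨C, hC⟩ := loglog_grp (c := 1 / (1 + η)) (by positivity)
    (by rw [div_lt_one hη1]; linarith)
  refine ⟨max C 0, ?_⟩
  intro n α hα0 hα1 A hA k hk
  have h2 : ∀ x : Fin n → ZMod 2, x + x = 0 := by
    intro x
    funext i
    have : ∀ z : ZMod 2, z + z = 0 := by decide
    exact this (x i)
  have hA0 : (0 : ℝ) < A.card := lt_of_lt_of_le (by positivity) hA
  have hne : A.Nonempty := by
    rw [← card_pos]
    exact_mod_cast hA0
  have hcard : (Fintype.card (Fin n → ZMod 2) : ℝ) = 2 ^ n := by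
    rw [Fintype.card_fun, ZMod.card, Fintype.card_fin]
    push_cast
    rfl
  have hr : (Fintype.card (Fin n → ZMod 2) : ℝ) / A.card ≤ 1 / α := by
    rw [hcard, div_le_div_iff₀ hA0 hα0]
    linarith
  have hr1 : 1 ≤ (Fintype.card (Fin n → ZMod 2) : ℝ) / A.card := by
    rw [le_div_iff₀ hA0, one_mul]
    exact_mod_cast card_le_univ A
  have hL0 : 0 ≤ Real.log ((Fintype.card (Fin n → ZMod 2) : ℝ) / A.card) := Real.log_nonneg hr1
  have hLL : Real.log ((Fintype.card (Fin n → ZMod 2) : ℝ) / A.card) ≤ Real.log (1 / α) :=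
    Real.log_le_log (by linarith) hr
  have hk' : C * Real.log (2 + Real.log ((Fintype.card (Fin n → ZMod 2) : ℝ) / A.card)) ≤ k := by
    refine le_trans ?_ hk
    have h3 : 0 ≤ Real.log (2 + Real.log ((Fintype.card (Fin n → ZMod 2) : ℝ) / A.card)) :=
      Real.log_nonneg (by linarith)
    refine mul_le_mul (le_max_left _ _) (Real.log_le_log (by linarith) (by linarith)) h3
      (le_max_right _ _)
  obtain ⟨x, H, hH1, hH2⟩ := hC (Fin n → ZMod 2) h2 A hne k hk'
  refine ⟨x, AddSubgroup.toZModSubmodule 2 H, ?_, ?_⟩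
  · obtain ⟨W, hW⟩ : ∃ W, W = AddSubgroup.toZModSubmodule 2 H := ⟨_, rfl⟩
    rw [← hW]
    have hcW : Nat.card W = 2 ^ Module.finrank (ZMod 2) W := by
      have := Module.natCard_eq_pow_finrank (K := ZMod 2) (V := W)
      rwa [Nat.card_zmod] at this
    have hcH : Nat.card H = Nat.card W := by rw [hW]; rfl
    have hmul := H.index_mul_card
    have hGc : Nat.card (Fin n → ZMod 2) = 2 ^ n := by
      rw [Nat.card_eq_fintype_card, Fintype.card_fun, ZMod.card, Fintype.card_fin]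
    rw [hcH, hcW, hGc] at hmul
    have hidx : (0 : ℝ) < H.index := by
      exact_mod_cast Nat.pos_of_ne_zero H.index_ne_zero_of_finite
    have hlog2 : 0 < Real.log 2 := Real.log_pos (by norm_num)
    have h3 : Real.log (H.index : ℝ) + Module.finrank (ZMod 2) W * Real.log 2 = n * Real.log 2 := by
      have h4 : (H.index : ℝ) * 2 ^ Module.finrank (ZMod 2) W = 2 ^ n := by exact_mod_cast hmul
      have h5 := congrArg Real.log h4
      rwa [Real.log_mul hidx.ne' (by positivity), Real.log_pow, Real.log_pow] at h5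
    have h4 : 1 / (1 + η) * Real.log (H.index : ℝ) ≤ Real.log (1 / α) := by
      rw [← Real.log_rpow hidx]
      exact Real.log_le_log (Real.rpow_pos_of_pos hidx _) (hH1.trans hr)
    have h5 : Real.log (H.index : ℝ) ≤ (1 + η) * Real.log (1 / α) := by
      have := mul_le_mul_of_nonneg_left h4 hη1.le
      have h6 : (1 + η) * (1 / (1 + η) * Real.log (H.index : ℝ)) = Real.log (H.index : ℝ) := by
        field_simp
      linarith
    rw [← mul_div_assoc, le_div_iff₀ hlog2]
    linarith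
  · intro w hw
    exact hH2 w (by simpa using hw)

end PB
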